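import Pool.Agent.H88.RC.S2.Final

/-!
# Stage 2: the certificate, the parameters
-/

namespace RC.S2

open Finset

variable {n : ℕ} {η : ℝ} {K B : ℕ}

/-- the sign of a value of the coin -/
theorem sg_true : sg true = 1 := rfl

theorem sg_false : sg false = -1 := rfl

theorem gstep_flip (g : GC n) (i : Fin n) (hf : (proto n K B η).IsFlip (toCfg K B η g) i) :
    ∃ r cur, ∀ b, gstep K B η g i b = flipStep η K g i r cur b := by
  obtain ⟨next, hn⟩ := hf
  have e : (toCfg K B η g).st i = (g.pd i).s := rfl
  rw [e] at hn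
  unfold gstep
  cases hs : (g.pd i).s with
  | enter => rw [hs] at hn; simp [proto, act] at hn
  | entry j known cur =>
    rw [hs] at hn
    simp only [proto, act] at hn
    split_ifs at hn with h1 h2
    refine ⟨⟨known, []⟩, cur, fun b => ?_⟩
    simp only
    rw [dif_neg h1, if_pos h2]
  | write r cur x => rw [hs] at hn; simp [proto, act] at hn
  | poll r todo cur =>
    rw [hs] at hn
    cases todo with
    | nil => exact ⟨r, cur, fun b => rfl⟩
    | cons j todo => simp [proto, act] at hn
  | fin j view =>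
    rw [hs] at hn
    simp only [proto, act] at hn
    split_ifs at hn with h1

theorem gstep_det (g : GC n) (i : Fin n) (b : Bool)
    (hf : ¬ (proto n K B η).IsFlip (toCfg K B η g) i) :
    (gstep K B η g i b).Z = g.Z ∧ (gstep K B η g i b).Q = g.Q := by
  have e : (toCfg K B η g).st i = (g.pd i).s := rfl
  unfold Sub.IsFlip at hf
  rw [e] at hf
  unfold gstep
  cases hs : (g.pd i).s with
  | enter => exact ⟨rfl, rfl⟩
  | entry j known cur =>
    rw [hs] at hf
    simp only [proto, act] at hf
    simp only
    split_ifs with h1 h2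
    · exact ⟨rfl, rfl⟩
    · exfalso
      apply hf
      rw [dif_neg h1, if_pos h2]
      exact ⟨_, rfl⟩
    · exact ⟨rfl, rfl⟩
  | write r cur x => exact ⟨rfl, rfl⟩
  | poll r todo cur =>
    rw [hs] at hf
    cases todo with
    | nil => exact absurd ⟨_, rfl⟩ hf
    | cons j todo => exact ⟨rfl, rfl⟩
  | fin j view =>
    simp only
    split_ifs with h1 <;> exact ⟨rfl, rfl⟩

theorem m_mem_parts (h : List (Fin n × Bool)) (q : Fin n)
    (hq : ((gcfg K B η h).pd q).m ≠ none) : q ∈ parts h := by
  induction h using List.reverseRecOn with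
  | nil => exact absurd rfl hq
  | append_singleton h e ih =>
    rw [gcfg_snoc] at hq
    have hp : parts (h ++ [e]) = insert e.1 (parts h) := by
      ext x
      simp [parts, or_comm]
    rw [hp, Finset.mem_insert]
    by_cases hqe : q = e.1
    · exact Or.inl hqe
    · right
      apply ih
      rwa [move_ne (move_gstep K B η _ e.1 e.2) hqe] at hq

/-- the certificate for the value `v` -/
noncomputable def ff (K B : ℕ) (η : ℝ) (v : Bool) (h : List (Fin n × Bool)) : ℝ :=
  max 0 (Fz (1 / 1024) 12 (sg v * (gcfg K B η h).Z) (gcfg K B η h).Q) / 64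

theorem Q_bounds (hη : 0 < η) (hη1 : η ≤ 1 / 1000) (hK : 1 ≤ K) {g : GC n} (hI : Inv K B η g) :
    0 ≤ g.Q ∧ g.Q ≤ 11 / 10 := by
  cases hf : g.fz with
  | none =>
    obtain ⟨h1, h2, h3, h4⟩ := hI.unf hf
    have h5 := PhiC_nonneg hη hK (castOf g.pd)
    have h6 : 0 ≤ min (PhiC η K (castOf g.pd)) (1 / 4) := le_min h5 (by norm_num)
    constructor <;> linarith
  | some z =>
    obtain ⟨h1, h2, h3, h4, h5, h6⟩ := hI.frz z.1 z.2 hf
    constructor <;> linarith

theorem max_avg {a b c : ℝ} (h : a ≤ (b + c) / 2) :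
    max 0 a / 64 ≤ (max 0 b / 64 + max 0 c / 64) / 2 := by
  have h1 := le_max_left 0 b
  have h2 := le_max_left 0 c
  have h3 := le_max_right 0 b
  have h4 := le_max_right 0 c
  have : max 0 a ≤ (max 0 b + max 0 c) / 2 := max_le (by linarith) (by linarith)
  linarith

theorem ff_flip (v : Bool) (h : List (Fin n × Bool)) (i : Fin n)
    (hf : (proto n K B η).IsFlip ((proto n K B η).cfg h) i) :
    ff K B η v h ≤ (ff K B η v (h ++ [(i, false)]) + ff K B η v (h ++ [(i, true)])) / 2 := by
  rw [← toCfg_gcfg] at hf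
  obtain ⟨r, cur, hg⟩ := gstep_flip _ i hf
  unfold ff
  rw [gcfg_snoc, gcfg_snoc, hg, hg]
  set g := gcfg K B η h with hgdef
  apply max_avg
  cases hfz : g.fz with
  | some z =>
    have e1 : ∀ b, (flipStep η K g i r cur b).Z = g.Z := by
      intro b; simp only [flipStep, hfz]
    have e2 : ∀ b, (flipStep η K g i r cur b).Q = g.Q := by
      intro b; simp only [flipStep, hfz]
    simp only [e1, e2]
    linarith
  | none =>
    obtain ⟨w, hw⟩ : ∃ w, w = gg (Elo η K i (newGV g r cur true)) * ww η K (g.pd i).gv.length :=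
      ⟨_, rfl⟩
    have e1 : ∀ b, (flipStep η K g i r cur b).Z = g.Z + w * sg b := by
      intro b; simp only [flipStep, hfz, hw]; rfl
    have e2 : ∀ b, (flipStep η K g i r cur b).Q = g.Q + w ^ 2 := by
      intro b; simp only [flipStep, hfz, hw]; rfl
    simp only [e1, e2, sg_true, sg_false]
    have key := Fz_step (1 / 1024) 12 (sg v * g.Z) g.Q w
    have hw4 : 0 ≤ 2 * w ^ 4 := by positivity
    cases v with
    | true =>
      simp only [sg_true] at key ⊢
      have a1 : (1 : ℝ) * (g.Z + w * -1) = 1 * g.Z - w := by ring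
      have a2 : (1 : ℝ) * (g.Z + w * 1) = 1 * g.Z + w := by ring
      rw [a1, a2]
      linarith
    | false =>
      simp only [sg_false] at key ⊢
      have a1 : (-1 : ℝ) * (g.Z + w * -1) = -1 * g.Z + w := by ring
      have a2 : (-1 : ℝ) * (g.Z + w * 1) = -1 * g.Z - w := by ring
      rw [a1, a2]
      linarith

theorem isCert (hη : 0 < η) (hη1 : η ≤ 1 / 1000) (hK : 1 ≤ K) (hB : 1 ≤ VV η K B)
    (hs : 11 * Real.sqrt (η * K) < 1 / 2000) (v : Bool) :
    (proto n K B η).IsCert (ff K B η v) (1 / 65536)
      (fun h => (parts h).card ≤ K → ∀ i b, (proto n K B η).Outs h i b → b = v) where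
  nonneg h := by
    unfold ff
    have := le_max_left 0 (Fz (1 / 1024) 12 (sg v * (gcfg K B η h).Z) (gcfg K B η h).Q)
    positivity
  le_one h := by
    unfold ff
    have hI := inv_gcfg hη hK hB h
    obtain ⟨h1, h2⟩ := Q_bounds hη hη1 hK hI
    have h3 := Fz_le (1 / 1024) (sg v * (gcfg K B η h).Z) (gcfg K B η h).Q (by norm_num) h1 h2
    rw [div_le_one (by norm_num)]
    exact max_le (by norm_num) h3
  init := by
    unfold ff
    have e1 : (gcfg K B η ([] : List (Fin n × Bool))).Z = 0 := rfl
    have e2 : (gcfg K B η ([] : List (Fin n × Bool))).Q = 0 := rfl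
    rw [e1, e2, mul_zero, Fz_zero]
    have := le_max_right (0 : ℝ) (1 / 1024)
    linarith
  flip h i hf := ff_flip v h i hf
  det h i b hf := by
    unfold ff
    rw [gcfg_snoc]
    rw [← toCfg_gcfg] at hf
    obtain ⟨h1, h2⟩ := gstep_det _ i b hf
    simp only
    rw [h1, h2]
  good h hpos hcard i b hout := by
    have hI := inv_gcfg hη hK hB h
    set g := gcfg K B η h with hg
    have hFz : 0 < Fz (1 / 1024) 12 (sg v * g.Z) g.Q := by
      unfold ff at hpos
      by_contra hneg
      rw [max_eq_left (not_lt.mp hneg)] at hpos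
      simp at hpos
    unfold Sub.Outs at hout
    rw [← toCfg_gcfg] at hout
    have e : (toCfg K B η g).st i = (g.pd i).s := rfl
    rw [← hg, e] at hout
    cases hs' : (g.pd i).s with
    | enter => rw [hs'] at hout; simp [proto, act] at hout
    | entry j known cur =>
      exfalso
      rw [hs'] at hout
      simp only [proto, act] at hout
      split_ifs at hout with h1 h2
      apply h2
      have hkn : kn (g.pd i) = known := by simp only [kn, hs']
      have him : (g.pd i).m ≠ none := by
        have := hI.loc i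
        simp only [Loc, hs'] at this
        rw [this.1]; simp
      have hsub : insert i known ⊆ parts h := by
        intro x hx
        rcases Finset.mem_insert.mp hx with rfl | hx
        · exact m_mem_parts h x him
        · exact m_mem_parts h x (hI.Kn i x (by rw [hkn]; exact hx)).2
      have hni : i ∉ known := by
        intro hmem
        exact (hI.Kn i i (by rw [hkn]; exact hmem)).1 rfl
      have := Finset.card_le_card hsub
      rw [Finset.card_insert_of_notMem hni] at this
      exact this.trans hcard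
    | write r cur x => rw [hs'] at hout; simp [proto, act] at hout
    | poll r todo cur =>
      rw [hs'] at hout
      cases todo <;> simp [proto, act] at hout
    | fin j view =>
      rw [hs'] at hout
      simp only [proto, act] at hout
      split_ifs at hout with h1
      injection hout with hout
      have hb := final_bound hη hη1 hK hI (parts h) hcard (fun q hq => m_mem_parts h q hq) hs'
        (not_lt.mp h1)
      obtain ⟨cT, pT, hfz, -⟩ := hI.view i j view hs'
      obtain ⟨-, -, -, -, h5, h6⟩ := hI.frz cT pT hfz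
      have hz : 1 / 2000 < sg v * g.Z := by
        by_contra hle
        have := Fz_nonpos (1 / 1024) (1 / 2000) (1 / 16) (sg v * g.Z) g.Q (by norm_num)
          (by norm_num) h5 (by linarith) (by norm_num) (by norm_num) (by norm_num) (by norm_num)
          (not_lt.mp hle)
        linarith
      rw [abs_le] at hb
      cases v with
      | true =>
        rw [sg_true, one_mul] at hz
        rw [← hout, decide_eq_true_eq]
        linarith [hb.1]
      | false =>
        rw [sg_false] at hz
        rw [← hout, decide_eq_false_iff_not]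
        intro h7
        linarith [hb.2]

/-- the second stage -/
theorem exists_stage2 : ∃ δ : ℝ, 0 < δ ∧ ∃ C : ℕ, ∀ n K : ℕ, 1 ≤ K → K ^ 3 ≤ n →
    ∃ T ≤ C * n, Nonempty (Stage2 n T K δ) := by
  refine ⟨1 / 65536, by norm_num, 5 + 3 * 10 ^ 10, fun n K hK hn => ?_⟩
  have hK' : (1 : ℝ) ≤ K := by exact_mod_cast hK
  have hKp : (0 : ℝ) < K := by linarith
  set B : ℕ := 10 ^ 10 * K ^ 2 with hB
  set η : ℝ := 1 / (10 ^ 10 * K) with hη
  have hη0 : 0 < η := by positivity
  have hη1 : η ≤ 1 / 1000 := by
    rw [hη]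
    apply one_div_le_one_div_of_le (by norm_num)
    nlinarith
  have hηK : η * K = (1 / 10 ^ 5) ^ 2 := by
    rw [hη]; field_simp
  have hsq : Real.sqrt (η * K) = 1 / 10 ^ 5 := by
    rw [hηK]
    exact Real.sqrt_sq (by norm_num)
  have hB1 : 1 ≤ B := by
    rw [hB]
    have : 1 ≤ K ^ 2 := Nat.one_le_pow _ _ hK
    omega
  have hVB : 1 ≤ VV η K B := by
    have h1 : 1 + (B : ℝ) * η ≤ (1 + η) ^ B := one_add_mul_le_pow (by linarith) B
    have h2 : (B : ℝ) * η = K := by
      rw [hB, hη]; push_cast; field_simp; norm_num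
    unfold VV uu
    rw [pow_zero, ← sub_div, le_div_iff₀ hKp]
    linarith
  refine ⟨2 * n + 3 + (B - 1) * (K + 2), ?_, ⟨?_⟩⟩
  · have h1 : (B - 1) * (K + 2) ≤ 3 * 10 ^ 10 * n := by
      calc (B - 1) * (K + 2) ≤ B * (3 * K) := Nat.mul_le_mul (Nat.sub_le _ _) (by omega)
        _ = 3 * 10 ^ 10 * K ^ 3 := by rw [hB]; ring
        _ ≤ 3 * 10 ^ 10 * n := Nat.mul_le_mul_left _ hn
    have h2 : 1 ≤ n := by
      have : 1 ≤ K ^ 3 := Nat.one_le_pow _ _ hK
      omega
    have h3 : (5 + 3 * 10 ^ 10) * n = 5 * n + 3 * 10 ^ 10 * n := by ring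
    rw [h3]
    omega
  · exact
      { P := proto n K B η
        ranked := ranked n K B η hB1
        cert := fun v => ⟨ff K B η v, isCert hη0 hη1 hK hVB (by rw [hsq]; norm_num) v⟩ }

end RC.S2
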