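import Mathlib

/-!
# Stage 2: the bookkeeping of polls, flips and publications, abstractly
-/

namespace RC.S2

variable {n : ℕ}

/-- `PV r s q v`: the poll number `s` of process `r` has read the value `v` in the register of `q`;
`pub`: numbers of published votes; `pc q`, `pw q`: for each vote of `q` the values of `pub` when it
was flipped, and just before it was published. -/
structure AInv (PV : Fin n → ℕ → Fin n → ℕ → Prop) (pub : Fin n → ℕ)
    (pc pw : Fin n → List (Fin n → ℕ)) : Prop where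
  a : ∀ r s q v, PV r s q v → v ≤ pub q
  b : ∀ r s q v, PV r s q v → ∀ k f, (pw q)[k]? = some f → f r < s → k < v
  c : ∀ r s q v, PV r s q v → ∀ k f, (pc q)[k]? = some f → s < f r → v ≤ k
  d : ∀ r s q v, PV r s q v → s ≤ pub r
  pcle : ∀ (q : Fin n) (k : ℕ) (f : Fin n → ℕ), (pc q)[k]? = some f → ∀ r, f r ≤ pub r
  pwle : ∀ (q : Fin n) (k : ℕ) (f : Fin n → ℕ), (pw q)[k]? = some f → ∀ r, f r ≤ pub r
  pcpw : ∀ (q : Fin n) (k : ℕ) (f f' : Fin n → ℕ), (pc q)[k]? = some f → (pw q)[k]? = some f' → ∀ r, f r ≤ f' r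
  pwpc : ∀ (q : Fin n) (k : ℕ) (f f' : Fin n → ℕ), (pw q)[k]? = some f → (pc q)[k + 1]? = some f' → ∀ r, f r ≤ f' r
  pwlen : ∀ q, (pw q).length = pub q
  pclen : ∀ q, pub q ≤ (pc q).length ∧ (pc q).length ≤ pub q + 1

/-- relation to the moment when the clock was stopped -/
structure FInv (PV : Fin n → ℕ → Fin n → ℕ → Prop) (pub : Fin n → ℕ)
    (pc pw : Fin n → List (Fin n → ℕ)) (cT pT : Fin n → ℕ) : Prop where
  f1 : ∀ r s q v, PV r s q v → s < pT r → v ≤ pT q
  f2 : ∀ r s q v, PV r s q v → cT r < s → pT q ≤ v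
  f3c : ∀ (q : Fin n) (k : ℕ) (f : Fin n → ℕ), (pc q)[k]? = some f → k < cT q → ∀ r, f r ≤ pT r
  f3w : ∀ (q : Fin n) (k : ℕ) (f : Fin n → ℕ), (pw q)[k]? = some f → k < pT q → ∀ r, f r ≤ pT r
  pT_le : ∀ q, pT q ≤ cT q
  cT_le : ∀ q, cT q ≤ pT q + 1
  pT_pub : ∀ q, pT q ≤ pub q
  cT_cast : ∀ q, cT q ≤ (pc q).length

theorem getElem?_snoc {α : Type*} (l : List α) (a : α) (k : ℕ) (x : α)
    (h : (l ++ [a])[k]? = some x) : l[k]? = some x ∨ (k = l.length ∧ x = a) := by
  rcases lt_trichotomy k l.length with hk | hk | hk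
  · left
    rwa [List.getElem?_append_left hk] at h
  · right
    subst hk
    simp at h
    exact ⟨rfl, h.symm⟩
  · exfalso
    rw [List.getElem?_append_right hk.le] at h
    have : 1 ≤ k - l.length := by omega
    rw [List.getElem?_eq_none (by simpa using this)] at h
    cases h

theorem getElem?_lt {α : Type*} {l : List α} {k : ℕ} {x : α} (h : l[k]? = some x) :
    k < l.length := by
  by_contra hk
  rw [List.getElem?_eq_none (not_lt.mp hk)] at h
  cases h

variable {PV PV' : Fin n → ℕ → Fin n → ℕ → Prop} {pub : Fin n → ℕ}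
    {pc pw : Fin n → List (Fin n → ℕ)} {cT pT : Fin n → ℕ}

/-- a read -/
theorem AInv.R (h : AInv PV pub pc pw)
    (hPV : ∀ r s q v, PV' r s q v → PV r s q v ∨ (s = pub r ∧ v = pub q)) :
    AInv PV' pub pc pw where
  a r s q v hp := by
    rcases hPV r s q v hp with h1 | ⟨-, rfl⟩
    · exact h.a r s q v h1
    · exact le_rfl
  b r s q v hp k f hk hf := by
    rcases hPV r s q v hp with h1 | ⟨-, rfl⟩
    · exact h.b r s q v h1 k f hk hf
    · rw [← h.pwlen q]; exact getElem?_lt hk
  c r s q v hp k f hk hf := by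
    rcases hPV r s q v hp with h1 | ⟨rfl, rfl⟩
    · exact h.c r s q v h1 k f hk hf
    · have := h.pcle q k f hk r
      omega
  d r s q v hp := by
    rcases hPV r s q v hp with h1 | ⟨rfl, -⟩
    · exact h.d r s q v h1
    · exact le_rfl
  pcle := h.pcle
  pwle := h.pwle
  pcpw := h.pcpw
  pwpc := h.pwpc
  pwlen := h.pwlen
  pclen := h.pclen

/-- a publication -/
theorem AInv.W (h : AInv PV pub pc pw) (i : Fin n) (hl : (pc i).length = pub i + 1)
    (hPV : ∀ r s q v, PV' r s q v → PV r s q v) :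
    AInv PV' (Function.update pub i (pub i + 1)) pc (Function.update pw i (pw i ++ [pub])) := by
  have hmono : ∀ r, pub r ≤ Function.update pub i (pub i + 1) r := by
    intro r
    by_cases hr : r = i
    · subst hr; simp
    · simp [hr]
  have hw : ∀ q k f, (Function.update pw i (pw i ++ [pub]) q)[k]? = some f →
      (pw q)[k]? = some f ∨ (q = i ∧ k = pub i ∧ f = pub) := by
    intro q k f hk
    by_cases hq : q = i
    · subst hq
      rw [Function.update_self] at hk
      rcases getElem?_snoc _ _ _ _ hk with h1 | ⟨h1, h2⟩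
      · exact Or.inl h1
      · exact Or.inr ⟨rfl, by rw [h1, h.pwlen], h2⟩
    · rw [Function.update_of_ne hq] at hk
      exact Or.inl hk
  refine ⟨?_, ?_, ?_, ?_, ?_, ?_, ?_, ?_, ?_, ?_⟩
  · intro r s q v hp
    exact (h.a r s q v (hPV _ _ _ _ hp)).trans (hmono q)
  · intro r s q v hp k f hk hf
    rcases hw q k f hk with h1 | ⟨rfl, rfl, rfl⟩
    · exact h.b r s q v (hPV _ _ _ _ hp) k f h1 hf
    · have := h.d r s q v (hPV _ _ _ _ hp)
      omega
  · intro r s q v hp k f hk hf
    exact h.c r s q v (hPV _ _ _ _ hp) k f hk hf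
  · intro r s q v hp
    exact (h.d r s q v (hPV _ _ _ _ hp)).trans (hmono r)
  · intro q k f hk r
    exact (h.pcle q k f hk r).trans (hmono r)
  · intro q k f hk r
    rcases hw q k f hk with h1 | ⟨rfl, rfl, rfl⟩
    · exact (h.pwle q k f h1 r).trans (hmono r)
    · exact hmono r
  · intro q k f f' hk hk' r
    rcases hw q k f' hk' with h1 | ⟨rfl, rfl, rfl⟩
    · exact h.pcpw q k f f' hk h1 r
    · exact h.pcle q _ f hk r
  · intro q k f f' hk hk' r
    rcases hw q k f hk with h1 | ⟨rfl, rfl, rfl⟩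
    · exact h.pwpc q k f f' h1 hk' r
    · have := getElem?_lt hk'
      omega
  · intro q
    by_cases hq : q = i
    · subst hq; simp [h.pwlen]
    · simp [hq, h.pwlen]
  · intro q
    by_cases hq : q = i
    · subst hq; simp [hl]
    · simpa [hq] using h.pclen q

/-- a flip -/
theorem AInv.F (h : AInv PV pub pc pw) (i : Fin n) (hl : (pc i).length = pub i)
    (hPV : ∀ r s q v, PV' r s q v → PV r s q v) :
    AInv PV' pub (Function.update pc i (pc i ++ [pub])) pw := by
  have hw : ∀ q k f, (Function.update pc i (pc i ++ [pub]) q)[k]? = some f →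
      (pc q)[k]? = some f ∨ (q = i ∧ k = pub i ∧ f = pub) := by
    intro q k f hk
    by_cases hq : q = i
    · subst hq
      rw [Function.update_self] at hk
      rcases getElem?_snoc _ _ _ _ hk with h1 | ⟨h1, h2⟩
      · exact Or.inl h1
      · exact Or.inr ⟨rfl, by rw [h1, hl], h2⟩
    · rw [Function.update_of_ne hq] at hk
      exact Or.inl hk
  refine ⟨?_, ?_, ?_, ?_, ?_, ?_, ?_, ?_, ?_, ?_⟩
  · intro r s q v hp
    exact h.a r s q v (hPV _ _ _ _ hp)
  · intro r s q v hp k f hk hf
    exact h.b r s q v (hPV _ _ _ _ hp) k f hk hf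
  · intro r s q v hp k f hk hf
    rcases hw q k f hk with h1 | ⟨rfl, rfl, rfl⟩
    · exact h.c r s q v (hPV _ _ _ _ hp) k f h1 hf
    · exact h.a r s q v (hPV _ _ _ _ hp)
  · intro r s q v hp
    exact h.d r s q v (hPV _ _ _ _ hp)
  · intro q k f hk r
    rcases hw q k f hk with h1 | ⟨rfl, rfl, rfl⟩
    · exact h.pcle q k f h1 r
    · exact le_rfl
  · exact h.pwle
  · intro q k f f' hk hk' r
    rcases hw q k f hk with h1 | ⟨rfl, rfl, rfl⟩
    · exact h.pcpw q k f f' h1 hk' r
    · have := getElem?_lt hk'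
      rw [h.pwlen] at this
      omega
  · intro q k f f' hk hk' r
    rcases hw q (k + 1) f' hk' with h1 | ⟨rfl, h2, rfl⟩
    · exact h.pwpc q k f f' hk h1 r
    · exact h.pwle q k f hk r
  · exact h.pwlen
  · intro q
    by_cases hq : q = i
    · subst hq; simp [hl]
    · simpa [hq] using h.pclen q

theorem FInv.R (h : FInv PV pub pc pw cT pT)
    (hPV : ∀ r s q v, PV' r s q v → PV r s q v ∨ (s = pub r ∧ v = pub q)) :
    FInv PV' pub pc pw cT pT where
  f1 r s q v hp hs := by
    rcases hPV r s q v hp with h1 | ⟨rfl, rfl⟩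
    · exact h.f1 r s q v h1 hs
    · have := h.pT_pub r
      omega
  f2 r s q v hp hs := by
    rcases hPV r s q v hp with h1 | ⟨rfl, rfl⟩
    · exact h.f2 r s q v h1 hs
    · exact h.pT_pub q
  f3c := h.f3c
  f3w := h.f3w
  pT_le := h.pT_le
  cT_le := h.cT_le
  pT_pub := h.pT_pub
  cT_cast := h.cT_cast

theorem FInv.W (hA : AInv PV pub pc pw) (h : FInv PV pub pc pw cT pT) (i : Fin n)
    (hPV : ∀ r s q v, PV' r s q v → PV r s q v) :
    FInv PV' (Function.update pub i (pub i + 1)) pc (Function.update pw i (pw i ++ [pub]))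
      cT pT where
  f1 r s q v hp hs := h.f1 r s q v (hPV _ _ _ _ hp) hs
  f2 r s q v hp hs := h.f2 r s q v (hPV _ _ _ _ hp) hs
  f3c := h.f3c
  f3w q k f hk hk' r := by
    by_cases hq : q = i
    · subst hq
      rw [Function.update_self] at hk
      rcases getElem?_snoc _ _ _ _ hk with h1 | ⟨h1, h2⟩
      · exact h.f3w q k f h1 hk' r
      · have := h.pT_pub q
        rw [hA.pwlen] at h1
        omega
    · rw [Function.update_of_ne hq] at hk
      exact h.f3w q k f hk hk' r
  pT_le := h.pT_le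
  cT_le := h.cT_le
  pT_pub q := by
    by_cases hq : q = i
    · subst hq
      have := h.pT_pub q
      simp; omega
    · simpa [hq] using h.pT_pub q
  cT_cast := h.cT_cast

theorem FInv.F (h : FInv PV pub pc pw cT pT) (i : Fin n)
    (hPV : ∀ r s q v, PV' r s q v → PV r s q v) :
    FInv PV' pub (Function.update pc i (pc i ++ [pub])) pw cT pT where
  f1 r s q v hp hs := h.f1 r s q v (hPV _ _ _ _ hp) hs
  f2 r s q v hp hs := h.f2 r s q v (hPV _ _ _ _ hp) hs
  f3c q k f hk hk' r := by
    by_cases hq : q = i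
    · subst hq
      rw [Function.update_self] at hk
      rcases getElem?_snoc _ _ _ _ hk with h1 | ⟨h1, h2⟩
      · exact h.f3c q k f h1 hk' r
      · have := h.cT_cast q
        omega
    · rw [Function.update_of_ne hq] at hk
      exact h.f3c q k f hk hk' r
  f3w := h.f3w
  pT_le := h.pT_le
  cT_le := h.cT_le
  pT_pub := h.pT_pub
  cT_cast q := by
    by_cases hq : q = i
    · subst hq
      have := h.cT_cast q
      simp; omega
    · simpa [hq] using h.cT_cast q

/-- stopping the clock -/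
theorem FInv.start (h : AInv PV pub pc pw) : FInv PV pub pc pw (fun q => (pc q).length) pub where
  f1 r s q v hp _ := h.a r s q v hp
  f2 r s q v hp hs := by
    have := h.d r s q v hp
    have := (h.pclen r).1
    omega
  f3c q k f hk _ := h.pcle q k f hk
  f3w q k f hk _ := h.pwle q k f hk
  pT_le q := (h.pclen q).1
  cT_le q := (h.pclen q).2
  pT_pub _ := le_rfl
  cT_cast _ := le_rfl

end RC.S2
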