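import Pool.Agent.H88.RC.S2.Inv

/-!
# Stage 2: the clock, and the full invariant
-/

namespace RC.S2

open Finset

variable {n : ℕ}

def apc (g : GC n) (q : Fin n) : List (Fin n → ℕ) := (g.pd q).gv.map GV.pc

def apw (g : GC n) (q : Fin n) : List (Fin n → ℕ) := (g.pd q).pw

/-- bookkeeping invariants -/
def AI (g : GC n) : Prop := AInv (fun r => PV r (g.pd r)) g.pub (apc g) (apw g)

def FI (g : GC n) (cT pT : Fin n → ℕ) : Prop :=
  FInv (fun r => PV r (g.pd r)) g.pub (apc g) (apw g) cT pT

theorem kind_cases {K : ℕ} {η : ℝ} {g g' : GC n} {i : Fin n} {b : Bool}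
    (h : Kind K η g i b g') :
    (g'.pub = g.pub ∧ apc g' = apc g ∧ apw g' = apw g ∧
      ∀ r s q v, PV r (g'.pd r) s q v → PV r (g.pd r) s q v ∨ (s = g.pub r ∧ v = g.pub q)) ∨
    (g'.pub = Function.update g.pub i (g.pub i + 1) ∧ apc g' = apc g ∧
      apw g' = Function.update (apw g) i (apw g i ++ [g.pub]) ∧ (apc g i).length = g.pub i + 1 ∧
      ∀ r s q v, PV r (g'.pd r) s q v → PV r (g.pd r) s q v) ∨
    (g'.pub = g.pub ∧ apc g' = Function.update (apc g) i (apc g i ++ [g.pub]) ∧ apw g' = apw g ∧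
      (apc g i).length = g.pub i ∧
      ∀ r s q v, PV r (g'.pd r) s q v → PV r (g.pd r) s q v) := by
  cases h with
  | R d hgv hpw hlen hPV =>
    left
    refine ⟨?_, ?_, ?_, ?_⟩
    · funext r
      by_cases hr : r = i
      · subst hr; simp [GC.pub, GC.upd, hlen]
      · simp [GC.pub, GC.upd, hr]
    · funext r
      by_cases hr : r = i
      · subst hr; simp [apc, GC.upd, hgv]
      · simp [apc, GC.upd, hr]
    · funext r
      by_cases hr : r = i
      · subst hr; simp [apw, GC.upd, hpw]
      · simp [apw, GC.upd, hr]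
    · intro r s q v hp
      by_cases hr : r = i
      · subst hr
        simp only [GC.upd, Function.update_self] at hp
        exact hPV s q v hp
      · left
        simpa [GC.upd, hr] using hp
  | W d hgv hpw hlen hcast hPV =>
    right; left
    refine ⟨?_, ?_, ?_, ?_, ?_⟩
    · funext r
      by_cases hr : r = i
      · subst hr; simp [GC.pub, GC.upd, hlen]
      · simp [GC.pub, GC.upd, hr]
    · funext r
      by_cases hr : r = i
      · subst hr; simp [apc, GC.upd, hgv]
      · simp [apc, GC.upd, hr]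
    · funext r
      by_cases hr : r = i
      · subst hr; simp [apw, GC.upd, hpw]
      · simp [apw, GC.upd, hr]
    · simp [apc, hcast, GC.pub]
    · intro r s q v hp
      by_cases hr : r = i
      · subst hr
        simp only [GC.upd, Function.update_self] at hp
        exact hPV s q v hp
      · simpa [GC.upd, hr] using hp
  | F r0 cur hcast hrl hcur hPV =>
    right; right
    refine ⟨?_, ?_, ?_, ?_, ?_⟩
    · funext r
      by_cases hr : r = i
      · subst hr; simp [GC.pub, flipStep_pd]
      · simp [GC.pub, flipStep_pd, hr]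
    · funext r
      by_cases hr : r = i
      · subst hr; simp [apc, flipStep_pd, newGV]
      · simp [apc, flipStep_pd, hr]
    · funext r
      by_cases hr : r = i
      · subst hr; simp [apw, flipStep_pd]
      · simp [apw, flipStep_pd, hr]
    · simp [apc, hcast, GC.pub]
    · intro r s q v hp
      by_cases hr : r = i
      · subst hr
        exact hPV s q v hp
      · simpa [flipStep_pd, hr] using hp
  | idle => exact Or.inl ⟨rfl, rfl, rfl, fun _ _ _ _ hp => Or.inl hp⟩

theorem AI.kind {K : ℕ} {η : ℝ} {g g' : GC n} {i : Fin n} {b : Bool}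
    (h : Kind K η g i b g') (hA : AI g) : AI g' := by
  unfold AI at *
  rcases kind_cases h with ⟨h1, h2, h3, h4⟩ | ⟨h1, h2, h3, h4, h5⟩ | ⟨h1, h2, h3, h4, h5⟩
  · rw [h1, h2, h3]
    exact hA.R h4
  · rw [h1, h2, h3]
    exact hA.W i h4 h5
  · rw [h1, h2, h3]
    exact hA.F i h4 h5

theorem FI.kind {K : ℕ} {η : ℝ} {g g' : GC n} {i : Fin n} {b : Bool} {cT pT : Fin n → ℕ}
    (h : Kind K η g i b g') (hA : AI g) (hF : FI g cT pT) : FI g' cT pT := by
  unfold FI AI at *
  rcases kind_cases h with ⟨h1, h2, h3, h4⟩ | ⟨h1, h2, h3, h4, h5⟩ | ⟨h1, h2, h3, h4, h5⟩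
  · rw [h1, h2, h3]
    exact hF.R h4
  · rw [h1, h2, h3]
    exact hF.W hA i h5
  · rw [h1, h2, h3]
    exact hF.F i h5

/-! ### weights -/

section weights

variable {η : ℝ} {K : ℕ}

theorem uu_pos (hη : 0 < η) (hK : 1 ≤ K) (s : ℕ) : 0 < uu η K s := by
  unfold uu
  have : (0 : ℝ) < K := by exact_mod_cast hK
  positivity

theorem VV_zero : VV η K 0 = 0 := by simp [VV]

theorem VV_succ (s : ℕ) : VV η K (s + 1) = VV η K s + η * uu η K s := by
  unfold VV uu
  rw [pow_succ]
  ring

theorem VV_mono (hη : 0 < η) (hK : 1 ≤ K) : Monotone (VV η K) := by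
  apply monotone_nat_of_le_succ
  intro s
  rw [VV_succ]
  have := uu_pos hη hK s
  nlinarith

theorem VV_nonneg (hη : 0 < η) (hK : 1 ≤ K) (s : ℕ) : 0 ≤ VV η K s := by
  rw [← VV_zero (η := η) (K := K)]
  exact VV_mono hη hK (Nat.zero_le s)

theorem uu_eq (s : ℕ) : uu η K s = VV η K s + 1 / K := by
  unfold VV uu
  simp

theorem ww_sq (hη : 0 < η) (hK : 1 ≤ K) (s : ℕ) : ww η K s ^ 2 = η * uu η K s :=
  Real.sq_sqrt (by have := uu_pos hη hK s; positivity)

theorem ww_nonneg (s : ℕ) : 0 ≤ ww η K s := Real.sqrt_nonneg _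

theorem gg_nonneg (x : ℝ) : 0 ≤ gg x := le_max_left _ _

theorem gg_le_one {x : ℝ} (hx : 0 ≤ x) : gg x ≤ 1 := by
  unfold gg
  exact max_le (by norm_num) (by linarith)

theorem gg_ge (x : ℝ) : 1 - 2 * x ≤ gg x := le_max_right _ _

theorem gg_zero {x : ℝ} (hx : 1 / 2 ≤ x) : gg x = 0 := by
  unfold gg
  exact max_eq_left (by linarith)

theorem gg_lip (x y : ℝ) : |gg x - gg y| ≤ 2 * |x - y| := by
  unfold gg
  have h := abs_max_sub_max_le_abs (1 - 2 * x) (1 - 2 * y) 0
  rw [max_comm 0, max_comm 0]
  refine h.trans ?_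
  rw [show 1 - 2 * x - (1 - 2 * y) = (-2) * (x - y) by ring, abs_mul]
  norm_num

theorem sg_sq (b : Bool) : sg b ^ 2 = 1 := by cases b <;> simp [sg]

theorem abs_sg (b : Bool) : |sg b| = 1 := by cases b <;> simp [sg]

end weights

/-! ### the clock -/

/-- ghost term of vote `k` -/
noncomputable def tm (η : ℝ) (K : ℕ) (q : Fin n) (l : List (GV n)) (k : ℕ) : ℝ :=
  match l[k]? with
  | some v => gg (Elo η K q v) * ww η K k * sg v.x
  | none => 0

/-- sum of the first `m q` ghost terms of all `q` -/
noncomputable def ZG (η : ℝ) (K : ℕ) (pd : Fin n → PD n) (m : Fin n → ℕ) : ℝ :=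
  ∑ q, ∑ k ∈ range (m q), tm η K q (pd q).gv k

theorem tm_prefix (η : ℝ) (K : ℕ) (q : Fin n) (l l' : List (GV n)) (h : l <+: l') (k : ℕ)
    (hk : k < l.length) : tm η K q l' k = tm η K q l k := by
  obtain ⟨t, rfl⟩ := h
  unfold tm
  rw [List.getElem?_append_left hk]

theorem ZG_prefix (η : ℝ) (K : ℕ) (pd pd' : Fin n → PD n) (m : Fin n → ℕ)
    (h : ∀ q, (pd q).gv <+: (pd' q).gv) (hm : ∀ q, m q ≤ (pd q).gv.length) :
    ZG η K pd' m = ZG η K pd m := by
  unfold ZG
  refine Finset.sum_congr rfl fun q _ => Finset.sum_congr rfl fun k hk => ?_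
  exact tm_prefix η K q _ _ (h q) k (lt_of_lt_of_le (Finset.mem_range.mp hk) (hm q))

theorem ZG_flip (η : ℝ) (K : ℕ) (pd : Fin n → PD n) (i : Fin n) (d : PD n) (v : GV n)
    (hd : d.gv = (pd i).gv ++ [v]) :
    ZG η K (Function.update pd i d) (castOf (Function.update pd i d)) =
      ZG η K pd (castOf pd) + gg (Elo η K i v) * ww η K (pd i).gv.length * sg v.x := by
  unfold ZG castOf
  rw [← Finset.add_sum_erase _ _ (Finset.mem_univ i), ← Finset.add_sum_erase _ (fun q =>
    ∑ k ∈ range (pd q).gv.length, tm η K q (pd q).gv k) (Finset.mem_univ i)]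
  have h1 : ∑ x ∈ univ.erase i, ∑ k ∈ range (Function.update pd i d x).gv.length,
      tm η K x (Function.update pd i d x).gv k =
      ∑ x ∈ univ.erase i, ∑ k ∈ range (pd x).gv.length, tm η K x (pd x).gv k := by
    refine Finset.sum_congr rfl fun x hx => ?_
    rw [Function.update_of_ne (Finset.ne_of_mem_erase hx)]
  rw [h1, Function.update_self, hd, List.length_append, List.length_singleton,
    Finset.sum_range_succ]
  have h2 : ∑ x ∈ range (pd i).gv.length, tm η K i ((pd i).gv ++ [v]) x =
      ∑ x ∈ range (pd i).gv.length, tm η K i (pd i).gv x := by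
    refine Finset.sum_congr rfl fun x hx => ?_
    exact tm_prefix η K i _ _ (List.prefix_append _ _) x (Finset.mem_range.mp hx)
  rw [h2]
  have h3 : tm η K i ((pd i).gv ++ [v]) (pd i).gv.length =
      gg (Elo η K i v) * ww η K (pd i).gv.length * sg v.x := by
    unfold tm
    simp
  rw [h3]
  ring

theorem PhiC_flip (η : ℝ) (K : ℕ) (pd : Fin n → PD n) (i : Fin n) (d : PD n) (v : GV n)
    (hd : d.gv = (pd i).gv ++ [v]) :
    PhiC η K (castOf (Function.update pd i d)) =
      PhiC η K (castOf pd) + η * uu η K (pd i).gv.length := by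
  unfold PhiC castOf
  rw [← Finset.add_sum_erase _ _ (Finset.mem_univ i), ← Finset.add_sum_erase _ (fun q =>
    VV η K (pd q).gv.length) (Finset.mem_univ i)]
  have h1 : ∑ x ∈ univ.erase i, VV η K (Function.update pd i d x).gv.length =
      ∑ x ∈ univ.erase i, VV η K (pd x).gv.length := by
    refine Finset.sum_congr rfl fun x hx => ?_
    rw [Function.update_of_ne (Finset.ne_of_mem_erase hx)]
  rw [h1, Function.update_self, hd, List.length_append, List.length_singleton, VV_succ]
  ring

theorem VV_le_PhiC {η : ℝ} {K : ℕ} (hη : 0 < η) (hK : 1 ≤ K) (c : Fin n → ℕ) (i : Fin n) :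
    VV η K (c i) ≤ PhiC η K c :=
  Finset.single_le_sum (f := fun r => VV η K (c r)) (fun r _ => VV_nonneg hη hK _)
    (Finset.mem_univ i)

theorem PhiC_mono {η : ℝ} {K : ℕ} (hη : 0 < η) (hK : 1 ≤ K) {c c' : Fin n → ℕ} (h : c ≤ c') :
    PhiC η K c ≤ PhiC η K c' :=
  Finset.sum_le_sum fun r _ => VV_mono hη hK (h r)

theorem PhiC_nonneg {η : ℝ} {K : ℕ} (hη : 0 < η) (hK : 1 ≤ K) (c : Fin n → ℕ) :
    0 ≤ PhiC η K c := Finset.sum_nonneg fun r _ => VV_nonneg hη hK _

theorem Elo_nonneg {η : ℝ} {K : ℕ} (hη : 0 < η) (hK : 1 ≤ K) (q : Fin n) (v : GV n) :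
    0 ≤ Elo η K q v := by
  unfold Elo
  refine Finset.sum_nonneg fun r _ => ?_
  split_ifs <;> exact VV_nonneg hη hK _

theorem Elo_le {η : ℝ} {K : ℕ} (hη : 0 < η) (hK : 1 ≤ K) (q : Fin n) (v : GV n) (c : Fin n → ℕ)
    (h1 : ∀ r ∈ insert q v.kn, v.pl r ≤ c r) (h2 : ∀ r, v.pc r ≤ c r) :
    Elo η K q v ≤ PhiC η K c := by
  unfold Elo PhiC
  refine Finset.sum_le_sum fun r _ => ?_
  split_ifs with h
  · exact VV_mono hη hK (h1 r h)
  · exact VV_mono hη hK ((Nat.sub_le _ _).trans (h2 r))

/-- the full invariant -/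
structure Inv (K B : ℕ) (η : ℝ) (g : GC n) : Prop where
  loc : ∀ q, Loc K B (g.pd q)
  A : AI g
  H : HInv g
  Kn : KInv g
  unf : g.fz = none → PhiC η K (castOf g.pd) < 1 ∧ g.Z = ZG η K g.pd (castOf g.pd) ∧
    min (PhiC η K (castOf g.pd)) (1 / 4) / 4 ≤ g.Q ∧ g.Q ≤ PhiC η K (castOf g.pd)
  frz : ∀ cT pT, g.fz = some (cT, pT) → FI g cT pT ∧ 1 ≤ PhiC η K cT ∧
    PhiC η K cT ≤ 1 + 2 * η ∧ g.Z = ZG η K g.pd cT ∧ 1 / 16 ≤ g.Q ∧ g.Q ≤ 1 + 2 * η
  view : ∀ i j view, (g.pd i).s = .fin j view → ∃ cT pT, g.fz = some (cT, pT) ∧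
    ∀ q : Fin n, q.1 < j → Pre (view q) (g.pd q).m ∧ pT q ≤ len (view q)

theorem inv_init (K B : ℕ) (η : ℝ) : Inv K B η (ginit n) where
  loc q := ⟨rfl, rfl, rfl⟩
  A := by
    have hPV : ∀ r s q v, ¬ PV r ((ginit n).pd r) s q v := by
      rintro r s q v (⟨r, e, h1, -⟩ | ⟨-, h2, -⟩)
      · cases h1
      · exact h2
    refine ⟨?_, ?_, ?_, ?_, ?_, ?_, ?_, ?_, ?_, ?_⟩
    · intro r s q v h; exact absurd h (hPV _ _ _ _)
    · intro r s q v h; exact absurd h (hPV _ _ _ _)
    · intro r s q v h; exact absurd h (hPV _ _ _ _)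
    · intro r s q v h; exact absurd h (hPV _ _ _ _)
    · intro q k f h; simp [apc, ginit] at h
    · intro q k f h; simp [apw, ginit] at h
    · intro q k f f' h; simp [apc, ginit] at h
    · intro q k f f' h; simp [apw, ginit] at h
    · intro q; rfl
    · intro q; simp [apc, ginit, GC.pub, len]
  H := by
    intro r q _ h
    exact absurd h (by simp [rd, ginit])
  Kn := by
    intro r q h
    exact absurd h (by simp [kn, ginit])
  unf _ := by
    have h1 : PhiC η K (castOf (ginit n).pd) = 0 := by
      simp [PhiC, castOf, ginit, VV_zero]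
    rw [h1]
    refine ⟨by norm_num, ?_, ?_, le_rfl⟩
    · simp [ZG, castOf, ginit]
    · simp [ginit]
  frz cT pT h := by cases h
  view i j view h := by cases h

theorem pub_le_cast {g : GC n} (hA : AI g) (q : Fin n) : g.pub q ≤ castOf g.pd q := by
  have := (hA.pclen q).1
  simpa [apc, castOf] using this

theorem move_ZQ {K B : ℕ} {η : ℝ} {g g' : GC n} {i : Fin n} {b : Bool}
    (h : Move K B η g i b g') :
    (g'.fz = g.fz ∧ g'.Z = g.Z ∧ g'.Q = g.Q ∧ ∀ q, (g'.pd q).gv = (g.pd q).gv) ∨
      ∃ r cur, g' = flipStep η K g i r cur b := by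
  cases h with
  | flip r cur hs => exact Or.inr ⟨r, cur, rfl⟩
  | idle => exact Or.inl ⟨rfl, rfl, rfl, fun _ => rfl⟩
  | _ =>
    left
    refine ⟨rfl, rfl, rfl, fun q => ?_⟩
    by_cases hq : q = i
    · subst hq; simp [GC.upd]
    · simp [GC.upd, hq]

/-- the clock part at a flip -/
theorem flip_clock {K B : ℕ} {η : ℝ} {g : GC n} {i : Fin n} {b : Bool} (hη : 0 < η) (hK : 1 ≤ K)
    (hI : Inv K B η g) {r : Rec n} {cur : Fin n → ℕ}
    (hcur : ∀ q ∈ insert i r.known, PV i (g.pd i) (len (g.pd i).m) q (cur q))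
    (hfz : g.fz = none) :
    let g' := flipStep η K g i r cur b
    PhiC η K (castOf g'.pd) ≤ 1 + 2 * η ∧ g'.Z = ZG η K g'.pd (castOf g'.pd) ∧
    min (PhiC η K (castOf g'.pd)) (1 / 4) / 4 ≤ g'.Q ∧ g'.Q ≤ PhiC η K (castOf g'.pd) ∧
    g'.fz = if 1 ≤ PhiC η K (castOf g'.pd) then some (castOf g'.pd, g.pub) else none := by
  intro g'
  have hpd : g'.pd = Function.update g.pd i ⟨.write r cur b, (g.pd i).m,
      (g.pd i).gv ++ [newGV g r cur b], (g.pd i).pw⟩ := flipStep_pd η K g i r cur b
  obtain ⟨h1, h2, h3, h4⟩ := hI.unf hfz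
  set Φ := PhiC η K (castOf g.pd) with hΦ
  have hΦ0 : 0 ≤ Φ := PhiC_nonneg hη hK _
  set v := newGV g r cur b with hv
  have hE : Elo η K i v ≤ Φ := by
    apply Elo_le hη hK
    · intro q hq
      exact (hI.A.a i _ q _ (hcur q hq)).trans (pub_le_cast hI.A q)
    · intro q
      exact pub_le_cast hI.A q
  set k := (g.pd i).gv.length with hk
  have hΦ' : PhiC η K (castOf g'.pd) = Φ + η * uu η K k := by
    rw [hpd, PhiC_flip η K g.pd i _ v rfl]
  have hu : uu η K k ≤ 2 := by
    rw [uu_eq]
    have h5 : VV η K k ≤ Φ := VV_le_PhiC hη hK (castOf g.pd) i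
    have h6 : (1 : ℝ) / K ≤ 1 := by
      rw [div_le_one (by exact_mod_cast hK)]
      exact_mod_cast hK
    linarith
  have hu0 : 0 < uu η K k := uu_pos hη hK k
  have hw : ww η K k ^ 2 = η * uu η K k := ww_sq hη hK k
  set G := gg (Elo η K i v) with hG
  have hG0 : 0 ≤ G := gg_nonneg _
  have hG1 : G ≤ 1 := gg_le_one (Elo_nonneg hη hK _ _)
  have hG2 : 1 - 2 * Φ ≤ G := by
    have := gg_ge (Elo η K i v)
    linarith
  have hZ : g'.Z = g.Z + G * ww η K k * sg b := by
    simp only [g', flipStep, hfz]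
    rfl
  have hQ : g'.Q = g.Q + (G * ww η K k) ^ 2 := by
    simp only [g', flipStep, hfz]
    rfl
  have hQ' : g'.Q = g.Q + G ^ 2 * (η * uu η K k) := by
    rw [hQ, mul_pow, hw]
  have hηu : 0 < η * uu η K k := mul_pos hη hu0
  refine ⟨?_, ?_, ?_, ?_, ?_⟩
  · rw [hΦ']
    nlinarith
  · rw [hZ, h2, hpd, ZG_flip η K g.pd i _ v rfl]
    rfl
  · rw [hΦ', hQ']
    rcases le_or_gt Φ (1 / 4) with h5 | h5
    · rw [min_eq_left h5] at h3
      have h6 : 1 / 2 ≤ G := by linarith
      have h7 : 1 / 4 ≤ G ^ 2 := by nlinarith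
      have h8 := min_le_left (Φ + η * uu η K k) (1 / 4)
      nlinarith
    · rw [min_eq_right h5.le] at h3
      have h8 := min_le_right (Φ + η * uu η K k) (1 / 4)
      nlinarith [mul_nonneg (sq_nonneg G) hηu.le]
  · rw [hΦ', hQ']
    have h7 : G ^ 2 ≤ 1 := by nlinarith
    nlinarith
  · simp only [g', flipStep, hfz]

theorem Inv.move {K B : ℕ} {η : ℝ} {g g' : GC n} {i : Fin n} {b : Bool} (hη : 0 < η)
    (hK : 1 ≤ K) (hB : 1 ≤ VV η K B) (hI : Inv K B η g) (h : Move K B η g i b g') :
    Inv K B η g' := by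
  have hk := kind_of_move (hI.loc i) h
  have hloc : ∀ q, Loc K B (g'.pd q) := by
    intro q
    by_cases hq : q = i
    · subst hq; exact (hI.loc q).move h
    · rw [move_ne h hq]; exact hI.loc q
  have hA' : AI g' := hI.A.kind hk
  -- the clock
  have hclock : (g'.fz = none → PhiC η K (castOf g'.pd) < 1 ∧ g'.Z = ZG η K g'.pd (castOf g'.pd) ∧
    min (PhiC η K (castOf g'.pd)) (1 / 4) / 4 ≤ g'.Q ∧ g'.Q ≤ PhiC η K (castOf g'.pd)) ∧
    (∀ cT pT, g'.fz = some (cT, pT) → FI g' cT pT ∧ 1 ≤ PhiC η K cT ∧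
    PhiC η K cT ≤ 1 + 2 * η ∧ g'.Z = ZG η K g'.pd cT ∧ 1 / 16 ≤ g'.Q ∧ g'.Q ≤ 1 + 2 * η) ∧
    (∀ z, g.fz = some z → g'.fz = some z) := by
    rcases move_ZQ h with ⟨h1, h2, h3, h4⟩ | ⟨r, cur, hg'⟩
    · have hc : castOf g'.pd = castOf g.pd := by
        funext q; simp [castOf, h4]
      have hZ : ∀ m, ZG η K g'.pd m = ZG η K g.pd m := by
        intro m
        unfold ZG
        simp only [h4]
      refine ⟨?_, ?_, ?_⟩
      · intro hf
        rw [hc, hZ, h2, h3]
        exact hI.unf (h1 ▸ hf)
      · intro cT pT hf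
        rw [h1] at hf
        obtain ⟨h5, h6, h7, h8, h9, h10⟩ := hI.frz cT pT hf
        rw [hZ, h2, h3]
        exact ⟨h5.kind hk hI.A, h6, h7, h8, h9, h10⟩
      · intro z hz
        rw [h1, hz]
    · subst hg'
      cases hfz : g.fz with
      | some z =>
        obtain ⟨cT, pT⟩ := z
        have e1 : (flipStep η K g i r cur b).fz = some (cT, pT) := by
          simp only [flipStep, hfz]
        have e2 : (flipStep η K g i r cur b).Z = g.Z := by
          simp only [flipStep, hfz]
        have e3 : (flipStep η K g i r cur b).Q = g.Q := by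
          simp only [flipStep, hfz]
        refine ⟨?_, ?_, ?_⟩
        · intro hf
          rw [e1] at hf
          cases hf
        · intro cT' pT' hf
          rw [e1] at hf
          cases hf
          obtain ⟨h5, h6, h7, h8, h9, h10⟩ := hI.frz cT pT hfz
          refine ⟨h5.kind hk hI.A, h6, h7, ?_, by rw [e3]; exact h9, by rw [e3]; exact h10⟩
          rw [e2, h8]
          symm
          apply ZG_prefix
          · intro q
            rw [flipStep_pd]
            by_cases hq : q = i
            · subst hq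
              rw [Function.update_self]
              exact List.prefix_append _ _
            · rw [Function.update_of_ne hq]
          · intro q
            have := h5.cT_cast q
            simpa [apc] using this
        · intro z hz
          rw [← hz, e1]
      | none =>
        have hcur : ∀ q ∈ insert i r.known, PV i (g.pd i) (len (g.pd i).m) q (cur q) := by
          generalize hg : flipStep η K g i r cur b = g' at hk
          cases hk with
          | F r' cur' hcast hrl hcur' hPV =>
            have h7 : r' = r ∧ cur' = cur ∨ True := Or.inr trivial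
            have e := congrArg (fun x => (x.pd i).s) hg
            simp only [flipStep_pd, Function.update_self] at e
            injection e with e1 e2
            subst e1 e2
            exact hcur'
          | R d hgv hpw hlen hPV =>
            exfalso
            have e := congrArg (fun x => (x.pd i).gv.length) hg
            simp [flipStep_pd, GC.upd, hgv] at e
          | W d hgv hpw hlen hPV =>
            exfalso
            have e := congrArg (fun x => (x.pd i).gv.length) hg
            simp [flipStep_pd, GC.upd, hgv] at e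
          | idle =>
            exfalso
            have e := congrArg (fun x => (x.pd i).gv.length) hg
            simp [flipStep_pd] at e
        obtain ⟨h1, h2, h3, h4, h5⟩ := flip_clock (b := b) hη hK hI hcur hfz
        refine ⟨?_, ?_, fun z hz => by cases hz⟩
        · intro hf
          rw [h5] at hf
          split_ifs at hf with h6
          exact ⟨not_le.mp h6, h2, h3, h4⟩
        · intro cT pT hf
          rw [h5] at hf
          split_ifs at hf with h6
          cases hf
          refine ⟨?_, h6, h1, h2, ?_, h4.trans h1⟩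
          · have e := FInv.start hA'
            unfold FI
            have e1 : (fun q => (apc (flipStep η K g i r cur b) q).length) =
                castOf (flipStep η K g i r cur b).pd := by
              funext q; simp [apc, castOf]
            have e2 : (flipStep η K g i r cur b).pub = g.pub := by
              funext q
              by_cases hq : q = i
              · subst hq; simp [GC.pub, flipStep_pd]
              · simp [GC.pub, flipStep_pd, hq]
            rw [e1, e2] at e
            rw [e2]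
            exact e
          · rw [min_eq_right (by linarith)] at h3
            linarith
  refine ⟨hloc, hA', hI.H.move hI.loc h, hI.Kn.move hI.loc h, hclock.1, hclock.2.1, ?_⟩
  intro p j view hs
  by_cases hp : p = i
  swap
  · rw [move_ne h hp] at hs
    obtain ⟨cT, pT, h1, h2⟩ := hI.view p j view hs
    refine ⟨cT, pT, hclock.2.2 _ h1, fun q hq => ?_⟩
    exact ⟨(h2 q hq).1.trans (Pre.move (hI.loc i) h q), (h2 q hq).2⟩
  · subst hp
    -- fz is set
    have hfz : ∃ cT pT, g'.fz = some (cT, pT) := by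
      cases hf : g'.fz with
      | some z => exact ⟨z.1, z.2, rfl⟩
      | none =>
        exfalso
        have h1 := (hclock.1 hf).1
        have h2 := hloc p
        simp only [Loc, hs] at h2
        obtain ⟨r, h3, h4, h5, h6, h7⟩ := h2
        have h8 : B ≤ castOf g'.pd p := by
          simp only [castOf, h6.length]
          exact h5
        have h9 := VV_le_PhiC hη hK (castOf g'.pd) p
        have h10 := VV_mono hη hK h8
        linarith
    obtain ⟨cT, pT, hf⟩ := hfz
    refine ⟨cT, pT, hf, ?_⟩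
    have hgen : ∀ j' view', (g.pd p).s = .fin j' view' → ∀ q : Fin n, q.1 < j' →
        Pre (view' q) (g'.pd q).m ∧ pT q ≤ len (view' q) := by
      intro j' view' hs' q hq
      obtain ⟨cT', pT', h1, h2⟩ := hI.view p j' view' hs'
      have h3 := hclock.2.2 _ h1
      rw [hf] at h3
      cases h3
      exact ⟨(h2 q hq).1.trans (Pre.move (hI.loc p) h q), (h2 q hq).2⟩
    cases h with
    | enter hs' => simp [GC.upd] at hs
    | entry j' known cur hs' => simp [GC.upd] at hs
    | flip r cur hs' => simp [flipStep_pd] at hs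
    | write r cur x hs' =>
      simp only [GC.upd, Function.update_self, after] at hs
      split_ifs at hs with h5
      cases hs
      intro q hq
      omega
    | poll r j' todo cur hs' => simp [GC.upd] at hs
    | fin j' view' hs' =>
      simp only [GC.upd, Function.update_self] at hs
      cases hs
      intro q hq
      by_cases hqj : q = j'
      · subst hqj
        rw [Function.update_self]
        refine ⟨Pre.move (η := η) (b := b) (g := g) (hI.loc p) (.fin q view' hs') q, ?_⟩
        have hF := (hclock.2.1 cT pT hf).1.pT_pub q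
        refine hF.trans (le_of_eq ?_)
        unfold GC.pub
        simp only [GC.upd]
        by_cases hqp : q = p
        · subst hqp; simp
        · simp [hqp]
      · rw [Function.update_of_ne hqj]
        apply hgen _ _ hs'
        have : q.1 ≠ j'.1 := fun h => hqj (Fin.ext h)
        omega
    | idle hs' => exact hgen _ _ hs

theorem inv_gcfg {K B : ℕ} {η : ℝ} (hη : 0 < η) (hK : 1 ≤ K) (hB : 1 ≤ VV η K B)
    (h : List (Fin n × Bool)) : Inv K B η (gcfg K B η h) := by
  induction h using List.reverseRecOn with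
  | nil => exact inv_init K B η
  | append_singleton h e ih =>
    rw [gcfg_snoc]
    exact ih.move hη hK hB (move_gstep K B η _ e.1 e.2)

end RC.S2
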