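import Pool.Agent.H88.RC.Sub
import Pool.Agent.H88.RC.Poly

/-!
# Stage 2 of the coin: the protocol
-/

namespace RC.S2

open Finset

/-! ### weights -/

/-- `u s = (1+η)^s / K` -/
noncomputable def uu (η : ℝ) (K : ℕ) (s : ℕ) : ℝ := (1 + η) ^ s / K

/-- the total variance of the first `s` votes of a process -/
noncomputable def VV (η : ℝ) (K : ℕ) (s : ℕ) : ℝ := uu η K s - uu η K 0

/-- the weight of vote number `s` -/
noncomputable def ww (η : ℝ) (K : ℕ) (s : ℕ) : ℝ := Real.sqrt (η * uu η K s)

/-- the discount -/
noncomputable def gg (x : ℝ) : ℝ := max 0 (1 - 2 * x)

/-- the sign of a coin -/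
def sg (b : Bool) : ℝ := if b then 1 else -1

/-! ### registers, states -/

structure Rec (n : ℕ) where
  known : Finset (Fin n)
  hist : List (Bool × (Fin n → ℕ))

/-- the number of published votes in a register -/
def len {n : ℕ} : Option (Rec n) → ℕ
  | none => 0
  | some r => r.hist.length

inductive St (n : ℕ) : Type
  | enter
  | entry (j : ℕ) (known : Finset (Fin n)) (cur : Fin n → ℕ)
  | write (r : Rec n) (cur : Fin n → ℕ) (x : Bool)
  | poll (r : Rec n) (todo : List (Fin n)) (cur : Fin n → ℕ)
  | fin (j : ℕ) (view : Fin n → Option (Rec n))

/-- number of polls in the record which do not show vote `i` of process `q` -/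
def cnt {n : ℕ} (v : Option (Rec n)) (q : Fin n) (i : ℕ) : ℕ :=
  match v with
  | none => 0
  | some r => r.hist.countP (fun e => e.2 q ≤ i)

/-- the contribution known to be earlier than vote `i` of `q` (with poll `pl`, known set `kn`) -/
noncomputable def EE {n : ℕ} (η : ℝ) (K : ℕ) (view : Fin n → Option (Rec n)) (q : Fin n)
    (kn : Finset (Fin n)) (pl : Fin n → ℕ) (i : ℕ) : ℝ :=
  ∑ r, if r ∈ insert q kn then VV η K (pl r) else VV η K (cnt (view r) q i - 1)

/-- the discounted sum of the votes of `q` in a view -/
noncomputable def Zq {n : ℕ} (η : ℝ) (K : ℕ) (view : Fin n → Option (Rec n)) (q : Fin n) : ℝ :=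
  match view q with
  | none => 0
  | some r => ∑ i : Fin r.hist.length,
      gg (EE η K view q r.known (r.hist.get i).2 i) * ww η K i * sg (r.hist.get i).1

/-- the discounted sum of all votes in a view -/
noncomputable def ZZ {n : ℕ} (η : ℝ) (K : ℕ) (view : Fin n → Option (Rec n)) : ℝ :=
  ∑ q, Zq η K view q

/-- append a vote with its poll to the record -/
def Rec.push {n : ℕ} (r : Rec n) (x : Bool) (cur : Fin n → ℕ) : Rec n :=
  ⟨r.known, r.hist ++ [(x, cur)]⟩

/-- the known set after the entry read of register `j` by `i` -/
def addKn {n : ℕ} (i j : Fin n) (m : Option (Rec n)) (known : Finset (Fin n)) : Finset (Fin n) :=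
  if j ≠ i ∧ m.isSome then insert j known else known

/-- the state after the publication of the record `r` -/
noncomputable def after {n : ℕ} (K B : ℕ) (i : Fin n) (r : Rec n) : St n :=
  if r.hist.length < B then .poll r ((insert i r.known).toList.take K) 0
  else .fin 0 (fun _ => none)

/-- the protocol; the coin of a vote is flipped after the end of the entry collect or of a poll -/
noncomputable def act (n K B : ℕ) (η : ℝ) (i : Fin n) : St n → SAct n (Option (Rec n)) (St n) Bool
  | .enter => .write (some ⟨∅, []⟩) (.entry 0 ∅ 0)
  | .entry j known cur =>
      if h : j < n then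
        .read ⟨j, h⟩ (fun v => .entry (j + 1) (addKn i ⟨j, h⟩ v known)
          (Function.update cur ⟨j, h⟩ (len v)))
      else if known.card + 1 ≤ K then .flip (fun b => .write ⟨known, []⟩ cur b)
      else .out true
  | .write r cur x =>
      .write (some (r.push x cur)) (after K B i (r.push x cur))
  | .poll r todo cur =>
      match todo with
      | [] => .flip (fun b => .write r cur b)
      | j :: todo => .read j (fun v => .poll r todo (Function.update cur j (len v)))
  | .fin j view =>
      if h : j < n then .read ⟨j, h⟩ (fun v => .fin (j + 1) (Function.update view ⟨j, h⟩ v))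
      else .out (decide (0 < ZZ η K view))

/-- Stage 2 of the coin -/
noncomputable def proto (n K B : ℕ) (η : ℝ) : Sub n Bool where
  V := Option (Rec n)
  v0 := none
  S := St n
  s0 := .enter
  act := act n K B η

/-! ### every process makes few steps -/

/-- rank of a state -/
def rank (n K B : ℕ) : St n → ℕ
  | .enter => 2 * n + 3 + (B - 1) * (K + 2)
  | .entry j _ _ => (n - j) + 2 + (B - 1) * (K + 2) + n
  | .write r _ _ => (B - r.hist.length - 1) * (K + 2) + 1 + n
  | .poll r todo _ => (B - r.hist.length - 1) * (K + 2) + todo.length + 2 + n
  | .fin j _ => n - j

/-- invariant of local states -/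
def okSt (n K B : ℕ) : St n → Prop
  | .write r _ _ => r.hist.length < B
  | .poll r todo _ => r.hist.length < B ∧ todo.length ≤ K
  | _ => True

theorem ranked (n K B : ℕ) (η : ℝ) (hB : 1 ≤ B) :
    (proto n K B η).Ranked (2 * n + 3 + (B - 1) * (K + 2)) := by
  refine ⟨fun _ => okSt n K B, fun _ => rank n K B, fun _ => trivial, fun _ => le_rfl, ?_, ?_, ?_⟩
  · intro i s j next v hok hact
    cases s with
    | enter => simp [proto, act] at hact
    | entry j' known cur =>
      simp only [proto, act] at hact
      split_ifs at hact with h1 h2
      cases hact
      refine ⟨trivial, ?_⟩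
      simp only [rank]; omega
    | write r cur x => simp [proto, act] at hact
    | poll r todo cur =>
      cases todo with
      | nil => simp [proto, act] at hact
      | cons j' todo =>
        simp only [proto, act] at hact
        cases hact
        simp only [okSt, List.length_cons] at hok
        refine ⟨⟨hok.1, by omega⟩, ?_⟩
        simp only [rank, List.length_cons]; omega
    | fin j' view =>
      simp only [proto, act] at hact
      split_ifs at hact with h1
      cases hact
      refine ⟨trivial, ?_⟩
      simp only [rank]; omega
  · intro i s v next hok hact
    cases s with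
    | enter =>
      simp only [proto, act] at hact
      cases hact
      refine ⟨trivial, ?_⟩
      simp only [rank]; omega
    | entry j' known cur =>
      simp only [proto, act] at hact
      split_ifs at hact with h1 h2
    | write r cur x =>
      simp only [proto, act] at hact
      cases hact
      simp only [okSt] at hok
      have hlen : (r.push x cur).hist.length = r.hist.length + 1 := by simp [Rec.push]
      unfold after
      rw [hlen]
      split_ifs with h1
      · refine ⟨⟨by rw [hlen]; exact h1, ?_⟩, ?_⟩
        · simp
        · simp only [rank, hlen]
          have h3 : ((insert i (r.push x cur).known).toList.take K).length ≤ K := by simp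
          obtain ⟨m, hm⟩ : ∃ m, B = r.hist.length + 2 + m := ⟨B - (r.hist.length + 2), by omega⟩
          have e1 : B - (r.hist.length + 1) - 1 = m := by omega
          have e2 : B - r.hist.length - 1 = m + 1 := by omega
          rw [e1, e2, Nat.succ_mul]
          omega
      · refine ⟨trivial, ?_⟩
        simp only [rank]; omega
    | poll r todo cur =>
      cases todo with
      | nil => simp [proto, act] at hact
      | cons j' todo => simp [proto, act] at hact
    | fin j' view =>
      simp only [proto, act] at hact
      split_ifs at hact with h1
  · intro i s next b hok hact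
    cases s with
    | enter => simp [proto, act] at hact
    | entry j' known cur =>
      simp only [proto, act] at hact
      split_ifs at hact with h1 h2
      cases hact
      refine ⟨by simp only [okSt, List.length_nil]; omega, ?_⟩
      simp only [rank, List.length_nil, Nat.sub_zero]
      omega
    | write r cur x => simp [proto, act] at hact
    | poll r todo cur =>
      cases todo with
      | nil =>
        simp only [proto, act] at hact
        cases hact
        refine ⟨hok.1, ?_⟩
        simp only [rank, List.length_nil]; omega
      | cons j' todo => simp [proto, act] at hact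
    | fin j' view =>
      simp only [proto, act] at hact
      split_ifs at hact with h1

end RC.S2
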