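import Pool.Agent.H88.RC.S2.Num

/-!
# Stage 2: every final view has a sum close to the ghost sum
-/

namespace RC.S2

open Finset

variable {n : ℕ} {η : ℝ} {K B : ℕ}

theorem countP_ge {α : Type*} (l : List α) (p : α → Bool) (c : ℕ)
    (h : ∀ s, s < c → ∃ e, l[s]? = some e ∧ p e = true) : c ≤ l.countP p := by
  have hc : c ≤ l.length := by
    rcases Nat.eq_zero_or_pos c with h0 | h0
    · omega
    · obtain ⟨e, he, -⟩ := h (c - 1) (by omega)
      have := getElem?_lt he
      omega
  have h1 : l.countP p = (l.take c).countP p + (l.drop c).countP p := by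
    rw [← List.countP_append, List.take_append_drop]
  have h2 : (l.take c).countP p = (l.take c).length := by
    rw [List.countP_eq_length]
    intro a ha
    obtain ⟨s, hs, rfl⟩ := List.mem_iff_getElem.mp ha
    rw [List.length_take] at hs
    obtain ⟨e, he, hp⟩ := h s (by omega)
    have : (l.take c)[s] = e := by
      rw [List.getElem_take]
      rw [List.getElem?_eq_getElem (by omega)] at he
      exact Option.some.inj he
    rw [this]
    exact hp
  rw [h1, h2, List.length_take]
  omega

theorem countP_le {α : Type*} (l : List α) (p : α → Bool) (c : ℕ)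
    (h : ∀ s e, c ≤ s → l[s]? = some e → p e = false) : l.countP p ≤ c := by
  have h1 : l.countP p = (l.take c).countP p + (l.drop c).countP p := by
    rw [← List.countP_append, List.take_append_drop]
  have h2 : (l.drop c).countP p = 0 := by
    rw [List.countP_eq_zero]
    intro a ha
    obtain ⟨s, hs, rfl⟩ := List.mem_iff_getElem.mp ha
    rw [List.getElem_drop]
    rw [List.length_drop] at hs
    have := h (c + s) _ (by omega) (List.getElem?_eq_getElem (by omega))
    simp [this]
  have h3 : (l.take c).countP p ≤ (l.take c).length := List.countP_le_length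
  rw [List.length_take] at h3
  omega

theorem Good.get {kn : Finset (Fin n)} {gv : List (GV n)} {hist : List (Bool × (Fin n → ℕ))}
    (h : Good kn gv hist) {i : ℕ} {e : Bool × (Fin n → ℕ)} (he : hist[i]? = some e) :
    ∃ v, gv[i]? = some v ∧ v.x = e.1 ∧ v.pl = e.2 ∧ v.kn = kn := by
  rw [← h.1, List.getElem?_map] at he
  rw [Option.map_eq_some_iff] at he
  obtain ⟨v, hv, rfl⟩ := he
  exact ⟨v, hv, rfl, rfl, h.2 v (List.mem_of_getElem? hv)⟩

/-- a published vote -/
theorem Loc.vote {d : PD n} (hL : Loc K B d) {r : Rec n} (hm : d.m = some r) {i : ℕ}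
    {e : Bool × (Fin n → ℕ)} (he : r.hist[i]? = some e) :
    (∃ v, d.gv[i]? = some v ∧ v.x = e.1 ∧ v.pl = e.2 ∧ v.kn = r.known) ∧ kn d = r.known ∧
      ∀ x, rd d x := by
  unfold Loc at hL
  unfold kn rd
  cases hs : d.s with
  | enter =>
    simp only [hs] at hL
    rw [hL.1] at hm; cases hm
  | entry j known cur =>
    simp only [hs] at hL
    rw [hL.1] at hm
    cases hm
    simp at he
  | write r1 cur x =>
    simp only [hs] at hL
    obtain ⟨r0, h1, h2, h3, h4, h5, h6⟩ := hL
    rw [h1] at hm
    cases hm
    rw [h2] at he
    have hne : r1.hist ≠ [] := by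
      intro h; rw [h] at he; simp at he
    have h7 : (r1.hist ++ [(x, cur)])[i]? = some e := by
      rw [List.getElem?_append_left (getElem?_lt he)]
      exact he
    obtain ⟨v, hv, h8, h9, h10⟩ := h5.get h7
    exact ⟨⟨v, hv, h8, h9, by rw [h10, h3 hne]⟩, (h3 hne).symm, fun _ => trivial⟩
  | poll r1 todo cur =>
    simp only [hs] at hL
    obtain ⟨h1, h2, h3, h4, h5⟩ := hL
    rw [h1] at hm
    cases hm
    exact ⟨h4.get he, rfl, fun _ => trivial⟩
  | fin j view =>
    simp only [hs] at hL
    obtain ⟨r1, h1, h2, h3, h4, h5⟩ := hL
    rw [h1] at hm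
    cases hm
    refine ⟨h4.get he, ?_, fun _ => trivial⟩
    simp only [h1]

/-- a vote in a view -/
theorem vote_of_pre {g : GC n} (hI : Inv K B η g) {q : Fin n} {v : Option (Rec n)}
    (hp : Pre v (g.pd q).m) {r' : Rec n} (hv : v = some r') {i : ℕ}
    {e : Bool × (Fin n → ℕ)} (he : r'.hist[i]? = some e) :
    ∃ r, (g.pd q).m = some r ∧ r.hist[i]? = some e ∧ r'.known = r.known ∧
      (∃ w, (g.pd q).gv[i]? = some w ∧ w.x = e.1 ∧ w.pl = e.2 ∧ w.kn = r.known) ∧
      kn (g.pd q) = r.known ∧ ∀ x, rd (g.pd q) x := by
  subst hv
  obtain ⟨r, h1, h2, h3⟩ := hp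
  have hne : r'.hist ≠ [] := by
    intro h; rw [h] at he; simp at he
  have he' : r.hist[i]? = some e := by
    obtain ⟨t, ht⟩ := h2
    rw [← ht, List.getElem?_append_left (getElem?_lt he)]
    exact he
  obtain ⟨h4, h5, h6⟩ := (hI.loc q).vote h1 he'
  exact ⟨r, h1, he', h3 hne, h4, h5, h6⟩

theorem getElem?_of_lt {α : Type*} {l : List α} {k : ℕ} (h : k < l.length) :
    ∃ x, l[k]? = some x := ⟨l[k], List.getElem?_eq_getElem h⟩

/-- value of the poll `s` of `r` on `q`, when `r` is not known to `q` -/
theorem unknown_poll {g : GC n} (hI : Inv K B η g) {view : Fin n → Option (Rec n)}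
    (hview : ∀ q, Pre (view q) (g.pd q).m) {q r : Fin n} {rq rr : Rec n} (hq : view q = some rq)
    {i : ℕ} {e : Bool × (Fin n → ℕ)} (he : rq.hist[i]? = some e) (hr : view r = some rr) {s : ℕ}
    {e' : Bool × (Fin n → ℕ)} (he' : rr.hist[s]? = some e') (hun : r ∉ insert q rq.known) :
    PV r (g.pd r) s q (e'.2 q) := by
  obtain ⟨r1, h1, h2, h3, h4, h5, h6⟩ := vote_of_pre hI (hview q) hq he
  obtain ⟨r2, k1, k2, k3, k4, k5, k6⟩ := vote_of_pre hI (hview r) hr he'
  left
  refine ⟨r2, e', k1, k2, ?_, rfl⟩
  rw [Finset.mem_insert] at hun ⊢
  push Not at hun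
  rcases hI.H q r (Ne.symm hun.1) (h6 r) (k6 q) with h | h
  · rw [h5, ← h3] at h
    exact absurd h hun.2
  · rw [k5] at h
    exact Or.inr h

theorem cnt_some (rr : Rec n) (q : Fin n) (i : ℕ) :
    cnt (some rr) q i = rr.hist.countP (fun e => e.2 q ≤ i) := rfl

theorem final_bound (hη : 0 < η) (hη1 : η ≤ 1 / 1000) (hK : 1 ≤ K) {g : GC n}
    (hI : Inv K B η g) (P : Finset (Fin n)) (hP : P.card ≤ K)
    (hPm : ∀ q, (g.pd q).m ≠ none → q ∈ P) {p : Fin n} {j : ℕ} {view : Fin n → Option (Rec n)}
    (hs : (g.pd p).s = .fin j view) (hj : n ≤ j) :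
    |ZZ η K view - g.Z| ≤ 11 * Real.sqrt (η * K) := by
  obtain ⟨cT, pT, hfz, hv⟩ := hI.view p j view hs
  have hview : ∀ q, Pre (view q) (g.pd q).m := fun q => (hv q (lt_of_lt_of_le q.2 hj)).1
  have hlen : ∀ q, pT q ≤ len (view q) := fun q => (hv q (lt_of_lt_of_le q.2 hj)).2
  obtain ⟨hF, hΦ1, hΦ2, hZ, -, -⟩ := hI.frz cT pT hfz
  have hA := hI.A
  have hmono := VV_mono hη hK
  set Gf : Fin n → ℕ → ℝ := fun q i =>
    match view q with
    | some r => (match r.hist[i]? with
      | some e => gg (EE η K view q r.known e.2 i)
      | none => 0)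
    | none => 0 with hGf
  set Hf : Fin n → ℕ → ℝ := fun q i =>
    match (g.pd q).gv[i]? with
    | some v => gg (Elo η K q v)
    | none => 0 with hHf
  set xf : Fin n → ℕ → ℝ := fun q i =>
    match (g.pd q).gv[i]? with
    | some v => sg v.x
    | none => 0 with hxf
  set pcf : Fin n → ℕ → Fin n → ℕ := fun q i => ((apc g q)[i]?).getD 0 with hpcf
  set pwf : Fin n → ℕ → Fin n → ℕ := fun q i => ((apw g q)[i]?).getD 0 with hpwf
  have hEE0 : ∀ q kn pl i, 0 ≤ EE η K view q kn pl i := by
    intro q kn pl i
    unfold EE
    refine Finset.sum_nonneg fun r _ => ?_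
    split_ifs <;> exact VV_nonneg hη hK _
  -- the two sums
  have eZ : g.Z = ∑ q, ∑ i ∈ range (cT q), Hf q i * ww η K i * xf q i := by
    rw [hZ]
    unfold ZG
    refine Finset.sum_congr rfl fun q _ => Finset.sum_congr rfl fun i _ => ?_
    unfold tm
    simp only [hHf, hxf]
    cases (g.pd q).gv[i]? <;> simp
  have eZZ : ZZ η K view = ∑ q, ∑ i ∈ range (len (view q)), Gf q i * ww η K i * xf q i := by
    unfold ZZ
    refine Finset.sum_congr rfl fun q _ => ?_
    unfold Zq
    cases hvq : view q with
    | none => simp [len]
    | some r =>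
      simp only [len]
      rw [Finset.sum_range]
      refine Finset.sum_congr rfl fun i _ => ?_
      have he : r.hist[(i : ℕ)]? = some (r.hist.get i) := by simp
      obtain ⟨r1, h1, h2, h3, ⟨w, h4, h5, h6, h7⟩, -, -⟩ := vote_of_pre hI (hview q) hvq he
      simp only [hGf, hxf, hvq, he, h4, h5]
  have hlen_pw : ∀ q, (apw g q).length = g.pub q := hA.pwlen
  have hpwget : ∀ q i, i < pT q → ∃ f, (apw g q)[i]? = some f := by
    intro q i hi
    apply getElem?_of_lt
    rw [hlen_pw]
    exact lt_of_lt_of_le hi (hF.pT_pub q)
  have hpcget : ∀ q i, i < cT q → ∃ f, (apc g q)[i]? = some f := by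
    intro q i hi
    apply getElem?_of_lt
    exact lt_of_lt_of_le hi (hF.cT_cast q)
  have hPc : ∀ q, q ∉ P → cT q = 0 := by
    intro q hq
    have h1 : (g.pd q).m = none := by
      by_contra h
      exact hq (hPm q h)
    have h2 := hI.loc q
    have h3 := hF.cT_cast q
    have h4 : g.pub q = 0 := by simp [GC.pub, h1, len]
    have h5 : (g.pd q).gv = [] := by
      unfold Loc at h2
      cases hs : (g.pd q).s with
      | enter => simp only [hs] at h2; exact h2.2.1
      | entry j known cur => simp only [hs] at h2; rw [h2.1] at h1; cases h1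
      | write r cur x => simp only [hs] at h2; obtain ⟨r0, h6, -⟩ := h2; rw [h6] at h1; cases h1
      | poll r todo cur => simp only [hs] at h2; rw [h2.1] at h1; cases h1
      | fin j view => simp only [hs] at h2; obtain ⟨r0, h6, -⟩ := h2; rw [h6] at h1; cases h1
    simp only [apc, h5, List.map_nil, List.length_nil] at h3
    omega
  have hPl : ∀ q, q ∉ P → len (view q) = 0 := by
    intro q hq
    have h1 : (g.pd q).m = none := by
      by_contra h
      exact hq (hPm q h)
    have h2 := hview q
    cases hvq : view q with
    | none => rfl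
    | some r =>
      rw [hvq, h1] at h2
      obtain ⟨r', h3, -⟩ := h2
      cases h3
  rw [eZ, eZZ]
  refine main_bound hη hK P hP pT cT (fun q => len (view q)) Gf Hf xf pcf pwf ?_ ?_ ?_ ?_ ?_
    hF.pT_le hF.cT_le hlen hPc hPl ?_ ?_ ?_ ?_ ?_ (by linarith)
  · intro q i
    simp only [hxf]
    cases (g.pd q).gv[i]? with
    | none => simp
    | some v => simp [abs_sg]
  · intro q i
    simp only [hGf]
    cases view q with
    | none => simp
    | some r =>
      cases h : r.hist[i]? with
      | none => simp [h]
      | some e => simp only [h]; exact gg_nonneg _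
  · intro q i
    simp only [hGf]
    cases view q with
    | none => simp
    | some r =>
      cases h : r.hist[i]? with
      | none => simp [h]
      | some e => simp only [h]; exact gg_le_one (hEE0 _ _ _ _)
  · intro q i
    simp only [hHf]
    cases (g.pd q).gv[i]? with
    | none => simp
    | some v => exact gg_nonneg _
  · intro q i
    simp only [hHf]
    cases (g.pd q).gv[i]? with
    | none => simp
    | some v => exact gg_le_one (Elo_nonneg hη hK _ _)
  · -- late votes
    intro q i hi hi'
    simp only [hGf]
    cases hvq : view q with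
    | none => rfl
    | some rq =>
      simp only
      cases he : rq.hist[i]? with
      | none => rfl
      | some e =>
        simp only
        apply gg_zero
        obtain ⟨r1, h1, h2, h3, h4, h5, h6⟩ := vote_of_pre hI (hview q) hvq he
        have hterm : ∀ r, VV η K (pT r - 1) ≤ (if r ∈ insert q rq.known then VV η K (e.2 r)
            else VV η K (cnt (view r) q i - 1)) := by
          intro r
          split_ifs with hr
          · apply hmono
            have h7 : PV q (g.pd q) i r (e.2 r) := Or.inl ⟨r1, e, h1, h2, h3 ▸ hr, rfl⟩
            have := hF.f2 q i r _ h7 hi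
            omega
          · apply hmono
            apply Nat.sub_le_sub_right
            rcases Nat.eq_zero_or_pos (pT r) with h0 | h0
            · omega
            · have h7 := hlen r
              cases hvr : view r with
              | none =>
                rw [hvr] at h7
                simp only [len] at h7
                omega
              | some rr =>
                rw [hvr] at h7
                simp only [len] at h7
                rw [cnt_some]
                apply countP_ge
                intro s hs
                obtain ⟨e', he'⟩ := getElem?_of_lt (lt_of_lt_of_le hs h7)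
                refine ⟨e', he', ?_⟩
                have h8 := unknown_poll hI hview hvq he hvr he' hr
                have h9 := hF.f1 r s q _ h8 hs
                have h10 := hF.pT_le q
                simp only [decide_eq_true_eq]
                omega
        have hsum : ∑ r, VV η K (pT r - 1) ≤ EE η K view q rq.known e.2 i := by
          unfold EE
          exact Finset.sum_le_sum fun r _ => hterm r
        -- the loss
        have hloss : ∀ r, VV η K (cT r) - VV η K (pT r - 1) ≤
            if r ∈ P then 2 * (η * (VV η K (cT r) + 1 / K)) else 0 := by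
          intro r
          split_ifs with hr
          · have c1 := hF.cT_le r
            have c2 := hF.pT_le r
            have hKp : (0 : ℝ) < 1 / K := by
              have : (0 : ℝ) < K := by exact_mod_cast hK
              positivity
            have hV0 := VV_nonneg hη hK (cT r)
            have hstep : ∀ a b, a ≤ b + 1 → a ≤ cT r →
                VV η K a - VV η K b ≤ η * (VV η K (cT r) + 1 / K) := by
              intro a b hab ha
              rcases Nat.lt_or_ge b a with h | h
              · have : a = b + 1 := by omega
                subst this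
                rw [VV_succ, uu_eq]
                have := hmono (show b ≤ cT r by omega)
                nlinarith
              · have := hmono h
                have : 0 ≤ η * (VV η K (cT r) + 1 / K) := by positivity
                linarith
            have s1 := hstep (cT r) (pT r) c1 le_rfl
            have s2 := hstep (pT r) (pT r - 1) (by omega) c2
            linarith
          · have h0 : cT r = 0 := hPc r hr
            have h1 : pT r = 0 := by have := hF.pT_le r; omega
            rw [h0, h1]
            simp
        have hKp : (0 : ℝ) < K := by exact_mod_cast hK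
        have hsum2 : PhiC η K cT - ∑ r, VV η K (pT r - 1) ≤ 2 * (η * (PhiC η K cT + 1)) := by
          unfold PhiC
          rw [← Finset.sum_sub_distrib]
          calc _ ≤ ∑ r, if r ∈ P then 2 * (η * (VV η K (cT r) + 1 / K)) else 0 :=
                Finset.sum_le_sum fun r _ => hloss r
            _ = ∑ r ∈ P, 2 * (η * (VV η K (cT r) + 1 / K)) := by
                rw [Finset.sum_ite_mem, Finset.univ_inter]
            _ = 2 * (η * ((∑ r ∈ P, VV η K (cT r)) + P.card / K)) := by
                rw [← Finset.mul_sum, ← Finset.mul_sum, Finset.sum_add_distrib, Finset.sum_const,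
                  nsmul_eq_mul]
                ring
            _ ≤ _ := by
                have h2 : (∑ q ∈ P, VV η K (cT q)) ≤ ∑ q, VV η K (cT q) :=
                  Finset.sum_le_sum_of_subset_of_nonneg (Finset.subset_univ P)
                    fun q _ _ => VV_nonneg hη hK _
                have h3 : (P.card : ℝ) / K ≤ 1 := by
                  rw [div_le_one hKp]
                  exact_mod_cast hP
                have := mul_le_mul_of_nonneg_left (add_le_add h2 h3) hη.le
                linarith
        nlinarith
  · -- common votes
    intro q i hi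
    have hi2 : i < len (view q) := lt_of_lt_of_le hi (hlen q)
    cases hvq : view q with
    | none => rw [hvq] at hi2; simp [len] at hi2
    | some rq =>
      rw [hvq] at hi2
      simp only [len] at hi2
      obtain ⟨e, he⟩ := getElem?_of_lt hi2
      obtain ⟨r1, h1, h2, h3, ⟨w, h4, h5, h6, h7⟩, h8, h9⟩ := vote_of_pre hI (hview q) hvq he
      obtain ⟨fw, hfw⟩ := hpwget q i hi
      have hfc : (apc g q)[i]? = some w.pc := by
        simp [apc, h4]
      have hi3 : i < cT q := lt_of_lt_of_le hi (hF.pT_le q)
      simp only [hGf, hHf, hvq, he, h4, hpcf, hpwf, hfw, hfc, Option.getD_some]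
      refine (gg_lip _ _).trans ?_
      apply mul_le_mul_of_nonneg_left _ (by norm_num)
      unfold EE Elo
      rw [← Finset.sum_sub_distrib]
      refine (Finset.abs_sum_le_sum_abs _ _).trans (Finset.sum_le_sum fun r _ => ?_)
      have hcw : w.pc r ≤ fw r := hA.pcpw q i _ _ hfc hfw r
      have hnn : 0 ≤ VV η K (fw r) - VV η K (w.pc r - 1) :=
        sub_nonneg.mpr (hmono (by omega))
      rw [h7, ← h3, h6]
      by_cases hr : r ∈ insert q rq.known
      · rw [if_pos hr, if_pos hr]
        simpa using hnn
      · rw [if_neg hr, if_neg hr]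
        have hc1 : w.pc r ≤ cnt (view r) q i := by
          have hle : w.pc r ≤ pT r := hF.f3c q i _ hfc hi3 r
          rcases Nat.eq_zero_or_pos (w.pc r) with h0 | h0
          · omega
          · have k1 := hlen r
            cases hvr : view r with
            | none =>
              rw [hvr] at k1
              simp only [len] at k1
              omega
            | some rr =>
              rw [hvr] at k1
              simp only [len] at k1
              rw [cnt_some]
              apply countP_ge
              intro s hs
              obtain ⟨e', he'⟩ := getElem?_of_lt (show s < rr.hist.length by omega)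
              refine ⟨e', he', ?_⟩
              have k2 := unknown_poll hI hview hvq he hvr he' hr
              have k3 := hA.c r s q _ k2 i _ hfc hs
              simp only [decide_eq_true_eq]
              exact k3
        have hc2 : cnt (view r) q i ≤ fw r + 1 := by
          cases hvr : view r with
          | none => simp [cnt]
          | some rr =>
            rw [cnt_some]
            apply countP_le
            intro s e' hs he'
            have k2 := unknown_poll hI hview hvq he hvr he' hr
            have k3 := hA.b r s q _ k2 i _ hfw (by omega)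
            simp only [decide_eq_false_iff_not]
            omega
        have d1 : VV η K (w.pc r - 1) ≤ VV η K (cnt (view r) q i - 1) := hmono (by omega)
        have d2 : VV η K (cnt (view r) q i - 1) ≤ VV η K (fw r) := hmono (by omega)
        rw [abs_of_nonneg (by linarith)]
        linarith
  · intro q i hi r
    obtain ⟨fw, hfw⟩ := hpwget q i hi
    obtain ⟨fc, hfc⟩ := hpcget q i (lt_of_lt_of_le hi (hF.pT_le q))
    simp only [hpcf, hpwf, hfw, hfc, Option.getD_some]
    exact hA.pcpw q i _ _ hfc hfw r
  · intro q i hi r
    obtain ⟨fw, hfw⟩ := hpwget q i (by omega)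
    obtain ⟨fc, hfc⟩ := hpcget q (i + 1) (lt_of_lt_of_le hi (hF.pT_le q))
    simp only [hpcf, hpwf, hfw, hfc, Option.getD_some]
    exact hA.pwpc q i _ _ hfw hfc r
  · intro q i hi r
    obtain ⟨fw, hfw⟩ := hpwget q i hi
    simp only [hpwf, hfw, Option.getD_some]
    exact hF.f3w q i _ hfw hi r

end RC.S2
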