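import Pool.Agent.H88.RC.S2.Def

/-!
# Stage 2: the ghost configuration
-/

namespace RC.S2

open Finset

variable {n : ℕ}

/-- ghost data of a vote: coin, poll, known set, and the numbers of published votes when it was
flipped -/
structure GV (n : ℕ) where
  x : Bool
  pl : Fin n → ℕ
  kn : Finset (Fin n)
  pc : Fin n → ℕ

/-- everything that belongs to one process: local state, register, ghost lists of votes flipped,
and for every vote published the numbers of published votes just before -/
structure PD (n : ℕ) where
  s : St n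
  m : Option (Rec n)
  gv : List (GV n)
  pw : List (Fin n → ℕ)

/-- ghost configuration; `fz` is set when the clock reaches one: numbers of votes flipped and
published at that moment -/
structure GC (n : ℕ) where
  pd : Fin n → PD n
  fz : Option ((Fin n → ℕ) × (Fin n → ℕ))
  Z : ℝ
  Q : ℝ

/-- the numbers of published votes -/
def GC.pub (g : GC n) : Fin n → ℕ := fun r => len (g.pd r).m

/-- the numbers of votes flipped -/
def castOf (pd : Fin n → PD n) : Fin n → ℕ := fun r => (pd r).gv.length

/-- the clock -/
noncomputable def PhiC (η : ℝ) (K : ℕ) (c : Fin n → ℕ) : ℝ := ∑ r, VV η K (c r)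

/-- predictable evidence -/
noncomputable def Elo (η : ℝ) (K : ℕ) (q : Fin n) (v : GV n) : ℝ :=
  ∑ r, if r ∈ insert q v.kn then VV η K (v.pl r) else VV η K (v.pc r - 1)

/-- replace the data of process `i` -/
def GC.upd (g : GC n) (i : Fin n) (d : PD n) : GC n := ⟨Function.update g.pd i d, g.fz, g.Z, g.Q⟩

/-- the initial ghost configuration -/
def ginit (n : ℕ) : GC n := ⟨fun _ => ⟨.enter, none, [], []⟩, none, 0, 0⟩

/-- new vote -/
def newGV (g : GC n) (r : Rec n) (cur : Fin n → ℕ) (b : Bool) : GV n := ⟨b, cur, r.known, g.pub⟩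

open Classical in
/-- a flip -/
noncomputable def flipStep (η : ℝ) (K : ℕ) (g : GC n) (i : Fin n) (r : Rec n) (cur : Fin n → ℕ)
    (b : Bool) : GC n :=
  let v := newGV g r cur b
  let d : PD n := ⟨.write r cur b, (g.pd i).m, (g.pd i).gv ++ [v], (g.pd i).pw⟩
  let pd' := Function.update g.pd i d
  match g.fz with
  | some z => ⟨pd', some z, g.Z, g.Q⟩
  | none =>
    ⟨pd', if 1 ≤ PhiC η K (castOf pd') then some (castOf pd', g.pub) else none,
      g.Z + gg (Elo η K i v) * ww η K (g.pd i).gv.length * sg b,
      g.Q + (gg (Elo η K i v) * ww η K (g.pd i).gv.length) ^ 2⟩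

/-- one step of the ghost configuration -/
noncomputable def gstep (K B : ℕ) (η : ℝ) (g : GC n) (i : Fin n) (b : Bool) : GC n :=
  match (g.pd i).s with
  | .enter => g.upd i ⟨.entry 0 ∅ 0, some ⟨∅, []⟩, (g.pd i).gv, (g.pd i).pw⟩
  | .entry j known cur =>
      if h : j < n then g.upd i ⟨.entry (j + 1)
          (addKn i ⟨j, h⟩ (g.pd ⟨j, h⟩).m known)
          (Function.update cur ⟨j, h⟩ (len (g.pd ⟨j, h⟩).m)),
          (g.pd i).m, (g.pd i).gv, (g.pd i).pw⟩
      else if known.card + 1 ≤ K then flipStep η K g i ⟨known, []⟩ cur b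
      else g
  | .write r cur x => g.upd i
      ⟨after K B i (r.push x cur), some (r.push x cur), (g.pd i).gv, (g.pd i).pw ++ [g.pub]⟩
  | .poll r todo cur =>
      match todo with
      | [] => flipStep η K g i r cur b
      | j :: todo => g.upd i
          ⟨.poll r todo (Function.update cur j (len (g.pd j).m)), (g.pd i).m, (g.pd i).gv,
            (g.pd i).pw⟩
  | .fin j view =>
      if h : j < n then g.upd i
        ⟨.fin (j + 1) (Function.update view ⟨j, h⟩ (g.pd ⟨j, h⟩).m), (g.pd i).m, (g.pd i).gv,
          (g.pd i).pw⟩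
      else g

/-- forget the ghosts -/
def toCfg (K B : ℕ) (η : ℝ) (g : GC n) : SCfg (proto n K B η) :=
  ⟨fun i => (g.pd i).s, fun i => (g.pd i).m⟩

/-- the cases of a step -/
inductive Move (K B : ℕ) (η : ℝ) (g : GC n) (i : Fin n) (b : Bool) : GC n → Prop
  | enter (hs : (g.pd i).s = .enter) : Move K B η g i b
      (g.upd i ⟨.entry 0 ∅ 0, some ⟨∅, []⟩, (g.pd i).gv, (g.pd i).pw⟩)
  | entry (j : Fin n) (known : Finset (Fin n)) (cur : Fin n → ℕ)
      (hs : (g.pd i).s = .entry j known cur) : Move K B η g i b
      (g.upd i ⟨.entry (j + 1) (addKn i j (g.pd j).m known)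
          (Function.update cur j (len (g.pd j).m)), (g.pd i).m, (g.pd i).gv, (g.pd i).pw⟩)
  | flip (r : Rec n) (cur : Fin n → ℕ)
      (hs : (g.pd i).s = .poll r [] cur ∨ (∃ j, n ≤ j ∧ (g.pd i).s = .entry j r.known cur ∧
        r.hist = [] ∧ r.known.card + 1 ≤ K)) : Move K B η g i b (flipStep η K g i r cur b)
  | write (r : Rec n) (cur : Fin n → ℕ) (x : Bool) (hs : (g.pd i).s = .write r cur x) :
      Move K B η g i b (g.upd i
      ⟨after K B i (r.push x cur), some (r.push x cur), (g.pd i).gv, (g.pd i).pw ++ [g.pub]⟩)
  | poll (r : Rec n) (j : Fin n) (todo : List (Fin n)) (cur : Fin n → ℕ)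
      (hs : (g.pd i).s = .poll r (j :: todo) cur) : Move K B η g i b
      (g.upd i ⟨.poll r todo (Function.update cur j (len (g.pd j).m)), (g.pd i).m, (g.pd i).gv,
            (g.pd i).pw⟩)
  | fin (j : Fin n) (view : Fin n → Option (Rec n)) (hs : (g.pd i).s = .fin j view) :
      Move K B η g i b (g.upd i
        ⟨.fin (j + 1) (Function.update view j (g.pd j).m), (g.pd i).m, (g.pd i).gv,
          (g.pd i).pw⟩)
  | idle (hs : (∃ j known cur, n ≤ j ∧ (g.pd i).s = .entry j known cur ∧ ¬ known.card + 1 ≤ K) ∨
      (∃ j view, n ≤ j ∧ (g.pd i).s = .fin j view)) : Move K B η g i b g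

theorem move_gstep (K B : ℕ) (η : ℝ) (g : GC n) (i : Fin n) (b : Bool) :
    Move K B η g i b (gstep K B η g i b) := by
  unfold gstep
  cases hs : (g.pd i).s with
  | enter => exact .enter hs
  | entry j known cur =>
    simp only
    split_ifs with h1 h2
    · exact .entry ⟨j, h1⟩ known cur hs
    · exact .flip ⟨known, []⟩ cur (Or.inr ⟨j, not_lt.mp h1, hs, rfl, h2⟩)
    · exact .idle (Or.inl ⟨j, known, cur, not_lt.mp h1, hs, h2⟩)
  | write r cur x => exact .write r cur x hs
  | poll r todo cur =>
    cases todo with
    | nil => exact .flip r cur (Or.inl hs)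
    | cons j todo => exact .poll r j todo cur hs
  | fin j view =>
    simp only
    split_ifs with h1
    · exact .fin ⟨j, h1⟩ view hs
    · exact .idle (Or.inr ⟨j, view, not_lt.mp h1, hs⟩)

theorem flipStep_pd (η : ℝ) (K : ℕ) (g : GC n) (i : Fin n) (r : Rec n) (cur : Fin n → ℕ)
    (b : Bool) : (flipStep η K g i r cur b).pd =
      Function.update g.pd i ⟨.write r cur b, (g.pd i).m, (g.pd i).gv ++ [newGV g r cur b],
        (g.pd i).pw⟩ := by
  unfold flipStep
  cases g.fz <;> rfl

theorem toCfg_gstep (K B : ℕ) (η : ℝ) (g : GC n) (i : Fin n) (b : Bool) :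
    toCfg K B η (gstep K B η g i b) = (proto n K B η).step (toCfg K B η g) i b := by
  have keys : ∀ (pd : Fin n → PD n) (d : PD n),
      (fun k => ((Function.update pd i d) k).s) = Function.update (fun k => (pd k).s) i d.s := by
    intro pd d
    funext k
    by_cases hk : k = i
    · subst hk; simp
    · simp [hk]
  have keym : ∀ (pd : Fin n → PD n) (d : PD n),
      (fun k => ((Function.update pd i d) k).m) = Function.update (fun k => (pd k).m) i d.m := by
    intro pd d
    funext k
    by_cases hk : k = i
    · subst hk; simp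
    · simp [hk]
  have e : Function.update (fun k => (g.pd k).m) i (g.pd i).m = fun k => (g.pd k).m :=
    Function.update_eq_self i (fun k => (g.pd k).m)
  unfold gstep Sub.step
  cases hs : (g.pd i).s with
  | enter =>
    have : (proto n K B η).act i ((toCfg K B η g).st i) = act n K B η i .enter := by
      simp [toCfg, hs, proto]
    rw [this]
    simp only [act, toCfg, GC.upd, keys, keym]
    rfl
  | entry j known cur =>
    have : (proto n K B η).act i ((toCfg K B η g).st i) = act n K B η i (.entry j known cur) := by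
      simp [toCfg, hs, proto]
    rw [this]
    simp only [act]
    split_ifs with h1 h2
    · simp only [toCfg, GC.upd, keys, keym, e]
      rfl
    · simp only [toCfg, flipStep_pd, keys, keym, e]
      rfl
    · rfl
  | write r cur x =>
    have : (proto n K B η).act i ((toCfg K B η g).st i) = act n K B η i (.write r cur x) := by
      simp [toCfg, hs, proto]
    rw [this]
    simp only [act, toCfg, GC.upd, keys, keym]
    rfl
  | poll r todo cur =>
    have : (proto n K B η).act i ((toCfg K B η g).st i) = act n K B η i (.poll r todo cur) := by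
      simp [toCfg, hs, proto]
    rw [this]
    cases todo with
    | nil =>
      simp only [act, toCfg, flipStep_pd, keys, keym, e]
      rfl
    | cons j todo =>
      simp only [act, toCfg, GC.upd, keys, keym, e]
      rfl
  | fin j view =>
    have : (proto n K B η).act i ((toCfg K B η g).st i) = act n K B η i (.fin j view) := by
      simp [toCfg, hs, proto]
    rw [this]
    simp only [act]
    split_ifs with h1
    · simp only [toCfg, GC.upd, keys, keym, e]
      rfl
    · rfl

/-- the ghost configuration after a history -/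
noncomputable def gcfg (K B : ℕ) (η : ℝ) (h : List (Fin n × Bool)) : GC n :=
  h.foldl (fun g e => gstep K B η g e.1 e.2) (ginit n)

theorem gcfg_snoc (K B : ℕ) (η : ℝ) (h : List (Fin n × Bool)) (e : Fin n × Bool) :
    gcfg K B η (h ++ [e]) = gstep K B η (gcfg K B η h) e.1 e.2 := by
  simp [gcfg, List.foldl_append]

theorem toCfg_gcfg (K B : ℕ) (η : ℝ) (h : List (Fin n × Bool)) :
    toCfg K B η (gcfg K B η h) = (proto n K B η).cfg h := by
  induction h using List.reverseRecOn with
  | nil => rfl
  | append_singleton h e ih => rw [gcfg_snoc, toCfg_gstep, ih, Sub.cfg_snoc]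

end RC.S2
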