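import Pool.Agent.H88.RC.S2.Ghost
import Pool.Agent.H88.RC.S2.Abs

/-!
# Stage 2: invariants of the ghost configuration
-/

namespace RC.S2

open Finset

variable {n : ℕ}

/-- the known set of a process -/
def kn (d : PD n) : Finset (Fin n) :=
  match d.s with
  | .enter => ∅
  | .entry _ known _ => known
  | .write r _ _ => r.known
  | .poll r _ _ => r.known
  | .fin _ _ => match d.m with
    | none => ∅
    | some r => r.known

/-- `x` has been read in the entry collect -/
def rd (d : PD n) (x : Fin n) : Prop :=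
  match d.s with
  | .enter => False
  | .entry j _ _ => x.1 < j
  | _ => True

/-- `x` has been read in the current poll -/
def dn (i : Fin n) (d : PD n) (x : Fin n) : Prop :=
  match d.s with
  | .entry j _ _ => x.1 < j
  | .write r _ _ => x ∈ insert i r.known
  | .poll r todo _ => x ∈ insert i r.known ∧ x ∉ todo
  | _ => False

/-- the current poll -/
def curr (d : PD n) : Fin n → ℕ :=
  match d.s with
  | .entry _ _ cur => cur
  | .write _ cur _ => cur
  | .poll _ _ cur => cur
  | _ => 0

/-- the poll number `s'` of process `i` has read `v` in the register of `q` -/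
def PV (i : Fin n) (d : PD n) (s' : ℕ) (q : Fin n) (v : ℕ) : Prop :=
  (∃ r e, d.m = some r ∧ r.hist[s']? = some e ∧ q ∈ insert i r.known ∧ v = e.2 q) ∨
    (s' = len d.m ∧ dn i d q ∧ v = curr d q)

/-- the ghost votes match the register -/
def Good (kn : Finset (Fin n)) (gv : List (GV n)) (hist : List (Bool × (Fin n → ℕ))) : Prop :=
  gv.map (fun v => (v.x, v.pl)) = hist ∧ ∀ v ∈ gv, v.kn = kn

/-- local invariant -/
def Loc (K B : ℕ) (d : PD n) : Prop :=
  match d.s with
  | .enter => d.m = none ∧ d.gv = [] ∧ d.pw = []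
  | .entry _ _ _ => d.m = some ⟨∅, []⟩ ∧ d.gv = [] ∧ d.pw = []
  | .write r cur x => ∃ r0, d.m = some r0 ∧ r0.hist = r.hist ∧ (r.hist ≠ [] → r0.known = r.known) ∧
      r.known.card + 1 ≤ K ∧ Good r.known d.gv (r.hist ++ [(x, cur)]) ∧
      d.pw.length = r.hist.length
  | .poll r _ _ => d.m = some r ∧ r.hist ≠ [] ∧ r.known.card + 1 ≤ K ∧
      Good r.known d.gv r.hist ∧ d.pw.length = r.hist.length
  | .fin _ _ => ∃ r, d.m = some r ∧ r.hist ≠ [] ∧ B ≤ r.hist.length ∧
      Good r.known d.gv r.hist ∧ d.pw.length = r.hist.length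

theorem Good.snoc {kn : Finset (Fin n)} {gv : List (GV n)} {hist : List (Bool × (Fin n → ℕ))}
    (h : Good kn gv hist) (x : Bool) (cur pc : Fin n → ℕ) :
    Good kn (gv ++ [⟨x, cur, kn, pc⟩]) (hist ++ [(x, cur)]) := by
  refine ⟨by simp [h.1], ?_⟩
  intro v hv
  rw [List.mem_append] at hv
  rcases hv with hv | hv
  · exact h.2 v hv
  · simp only [List.mem_singleton] at hv
    rw [hv]

theorem Good.length {kn : Finset (Fin n)} {gv : List (GV n)} {hist : List (Bool × (Fin n → ℕ))}
    (h : Good kn gv hist) : gv.length = hist.length := by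
  rw [← h.1, List.length_map]

/-- the register only grows -/
def Pre (v m : Option (Rec n)) : Prop :=
  match v with
  | none => True
  | some r' => ∃ r, m = some r ∧ r'.hist <+: r.hist ∧ (r'.hist ≠ [] → r'.known = r.known)

theorem Pre.refl (m : Option (Rec n)) : Pre m m := by
  cases m with
  | none => trivial
  | some r => exact ⟨r, rfl, List.prefix_rfl, fun _ => rfl⟩

theorem Pre.trans {a b c : Option (Rec n)} (h1 : Pre a b) (h2 : Pre b c) : Pre a c := by
  cases a with
  | none => trivial
  | some r =>
    obtain ⟨r', rfl, h3, h4⟩ := h1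
    obtain ⟨r'', rfl, h5, h6⟩ := h2
    refine ⟨r'', rfl, h3.trans h5, fun h => ?_⟩
    rw [h4 h, h6]
    intro h7
    apply h
    rw [h7] at h3
    exact List.prefix_nil.mp h3

/-! ### what a move does -/

/-- summary of a move of process `i` -/
inductive Kind (K : ℕ) (η : ℝ) (g : GC n) (i : Fin n) (b : Bool) : GC n → Prop
  /-- a read, or the first write -/
  | R (d : PD n) (hgv : d.gv = (g.pd i).gv) (hpw : d.pw = (g.pd i).pw)
      (hlen : len d.m = len (g.pd i).m)
      (hPV : ∀ s q v, PV i d s q v → PV i (g.pd i) s q v ∨ (s = g.pub i ∧ v = g.pub q)) :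
      Kind K η g i b (g.upd i d)
  /-- a publication -/
  | W (d : PD n) (hgv : d.gv = (g.pd i).gv) (hpw : d.pw = (g.pd i).pw ++ [g.pub])
      (hlen : len d.m = len (g.pd i).m + 1) (hcast : (g.pd i).gv.length = len (g.pd i).m + 1)
      (hPV : ∀ s q v, PV i d s q v → PV i (g.pd i) s q v) :
      Kind K η g i b (g.upd i d)
  /-- a flip -/
  | F (r : Rec n) (cur : Fin n → ℕ) (hcast : (g.pd i).gv.length = len (g.pd i).m)
      (hrl : r.hist.length = len (g.pd i).m)
      (hcur : ∀ q ∈ insert i r.known, PV i (g.pd i) (len (g.pd i).m) q (cur q))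
      (hPV : ∀ s q v, PV i ((flipStep η K g i r cur b).pd i) s q v → PV i (g.pd i) s q v) :
      Kind K η g i b (flipStep η K g i r cur b)
  | idle : Kind K η g i b g

theorem take_all (i : Fin n) (known : Finset (Fin n)) (K : ℕ) (h : known.card + 1 ≤ K) :
    (insert i known).toList.take K = (insert i known).toList := by
  apply List.take_of_length_le
  rw [Finset.length_toList]
  exact (Finset.card_insert_le i known).trans h

theorem len_push (r : Rec n) (x : Bool) (cur : Fin n → ℕ) :
    len (some (r.push x cur)) = r.hist.length + 1 := by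
  simp [len, Rec.push]

theorem dn_after (K B : ℕ) (i : Fin n) (r : Rec n) (h : r.known.card + 1 ≤ K) (m gv pw)
    (x : Fin n) : ¬ dn i ⟨after K B i r, m, gv, pw⟩ x := by
  unfold after
  split_ifs with h1
  · simp only [dn, take_all i r.known K h, Finset.mem_toList]
    tauto
  · simp [dn]

theorem kind_of_move {K B : ℕ} {η : ℝ} {g g' : GC n} {i : Fin n} {b : Bool}
    (hL : Loc K B (g.pd i)) (h : Move K B η g i b g') : Kind K η g i b g' := by
  cases h with
  | enter hs =>
    simp only [Loc, hs] at hL
    refine .R _ rfl rfl (by simp [len, hL.1]) ?_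
    rintro s q v (⟨r, e, h1, h2, -, -⟩ | ⟨-, h2, -⟩)
    · cases h1
      simp at h2
    · simp [dn] at h2
  | entry j known cur hs =>
    simp only [Loc, hs] at hL
    refine .R _ rfl rfl rfl ?_
    rintro s q v (⟨r, e, h1, h2, h3, h4⟩ | ⟨h1, h2, h3⟩)
    · exact Or.inl (Or.inl ⟨r, e, h1, h2, h3, h4⟩)
    · simp only [dn] at h2
      simp only [curr] at h3
      by_cases hq : q = j
      · subst hq
        right
        refine ⟨h1, ?_⟩
        rw [h3, Function.update_self]
        rfl
      · left; right
        refine ⟨h1, ?_, ?_⟩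
        · simp only [dn, hs]
          have : q.1 ≠ j.1 := fun h => hq (Fin.ext h)
          omega
        · rw [h3, Function.update_of_ne hq]
          simp [curr, hs]
  | flip r cur hs =>
    rcases hs with hs | ⟨j, hj, hs, hr, hc⟩
    · simp only [Loc, hs] at hL
      obtain ⟨h1, h2, h3, h4, h5⟩ := hL
      have hlen : len (g.pd i).m = r.hist.length := by rw [h1]; rfl
      refine .F r cur (by rw [hlen, h4.length]) hlen.symm ?_ ?_
      · intro q hq
        right
        refine ⟨rfl, ?_, ?_⟩
        · simp only [dn, hs]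
          exact ⟨hq, by simp⟩
        · simp [curr, hs]
      · rw [flipStep_pd, Function.update_self]
        rintro s q v (⟨r, e, h1, h2, h3, h4⟩ | ⟨h1, h2, h3⟩)
        · exact Or.inl ⟨r, e, h1, h2, h3, h4⟩
        · right
          refine ⟨h1, ?_, ?_⟩
          · simp only [dn] at h2
            simp only [dn, hs]
            exact ⟨h2, by simp⟩
          · rw [h3]
            simp [curr, hs]
    · simp only [Loc, hs] at hL
      obtain ⟨h1, h2, h3⟩ := hL
      have hlen : len (g.pd i).m = 0 := by rw [h1]; rfl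
      have hdn : ∀ q, dn i (g.pd i) q := by
        intro q
        simp only [dn, hs]
        exact lt_of_lt_of_le q.2 hj
      refine .F r cur (by rw [hlen, h2]; rfl) (by rw [hr, hlen]; rfl) ?_ ?_
      · intro q hq
        right
        exact ⟨rfl, hdn q, by simp [curr, hs]⟩
      · rw [flipStep_pd, Function.update_self]
        rintro s q v (⟨r, e, h1, h2, h3, h4⟩ | ⟨h1, h2, h3⟩)
        · exact Or.inl ⟨r, e, h1, h2, h3, h4⟩
        · right
          refine ⟨h1, hdn q, ?_⟩
          rw [h3]
          simp [curr, hs]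
  | write r cur x hs =>
    simp only [Loc, hs] at hL
    obtain ⟨r0, h1, h2, h3, h4, h5, h6⟩ := hL
    have hlen : len (g.pd i).m = r.hist.length := by rw [h1, ← h2]; rfl
    refine .W _ rfl rfl (by simp only [len_push, hlen]) (by rw [h5.length, hlen]; simp) ?_
    rintro s q v (⟨r', e, h7, h8, h9, h10⟩ | ⟨h7, h8, h9⟩)
    · simp only [Option.some.injEq] at h7
      subst h7
      simp only [Rec.push] at h8 h9
      rcases getElem?_snoc _ _ _ _ h8 with h11 | ⟨h11, h12⟩
      · left
        refine ⟨r0, e, h1, by rw [h2]; exact h11, ?_, h10⟩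
        rw [h3]
        · exact h9
        · intro h13
          rw [h13] at h11
          simp at h11
      · right
        refine ⟨by rw [hlen, h11], ?_, ?_⟩
        · simp only [dn, hs]
          exact h9
        · rw [h10, h12]
          simp [curr, hs]
    · exact absurd h8 (dn_after K B i (r.push x cur) h4 _ _ _ q)
  | poll r j todo cur hs =>
    simp only [Loc, hs] at hL
    refine .R _ rfl rfl rfl ?_
    rintro s q v (⟨r, e, h1, h2, h3, h4⟩ | ⟨h1, h2, h3⟩)
    · exact Or.inl (Or.inl ⟨r, e, h1, h2, h3, h4⟩)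
    · simp only [dn] at h2
      simp only [curr] at h3
      by_cases hq : q = j
      · subst hq
        right
        refine ⟨h1, ?_⟩
        rw [h3, Function.update_self]
        rfl
      · left; right
        refine ⟨h1, ?_, ?_⟩
        · simp only [dn, hs, List.mem_cons]
          tauto
        · rw [h3, Function.update_of_ne hq]
          simp [curr, hs]
  | fin j view hs =>
    simp only [Loc, hs] at hL
    refine .R _ rfl rfl rfl ?_
    rintro s q v (⟨r, e, h1, h2, h3, h4⟩ | ⟨h1, h2, h3⟩)
    · exact Or.inl (Or.inl ⟨r, e, h1, h2, h3, h4⟩)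
    · simp [dn] at h2
  | idle => exact .idle

/-- the processes whose data is unchanged -/
theorem move_ne {K B : ℕ} {η : ℝ} {g g' : GC n} {i : Fin n} {b : Bool}
    (h : Move K B η g i b g') {q : Fin n} (hq : q ≠ i) : g'.pd q = g.pd q := by
  cases h <;> simp [GC.upd, flipStep_pd, hq]

theorem loc_after (K B : ℕ) (i : Fin n) (r : Rec n) (gv : List (GV n)) (pw : List (Fin n → ℕ))
    (h1 : r.hist ≠ []) (h2 : r.known.card + 1 ≤ K) (h3 : Good r.known gv r.hist)
    (h4 : pw.length = r.hist.length) : Loc K B ⟨after K B i r, some r, gv, pw⟩ := by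
  unfold after
  split_ifs with h5
  · exact ⟨rfl, h1, h2, h3, h4⟩
  · exact ⟨r, rfl, h1, not_lt.mp h5, h3, h4⟩

theorem Loc.move {K B : ℕ} {η : ℝ} {g g' : GC n} {i : Fin n} {b : Bool}
    (hL : Loc K B (g.pd i)) (h : Move K B η g i b g') : Loc K B (g'.pd i) := by
  cases h with
  | enter hs =>
    simp only [Loc, hs] at hL
    simp only [GC.upd, Function.update_self]
    exact ⟨rfl, hL.2.1, hL.2.2⟩
  | entry j known cur hs =>
    simp only [Loc, hs] at hL
    simp only [GC.upd, Function.update_self]
    exact hL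
  | flip r cur hs =>
    rw [flipStep_pd, Function.update_self]
    rcases hs with hs | ⟨j, hj, hs, hr, hc⟩
    · simp only [Loc, hs] at hL
      obtain ⟨h1, h2, h3, h4, h5⟩ := hL
      exact ⟨r, h1, rfl, fun _ => rfl, h3, h4.snoc _ _ _, h5⟩
    · simp only [Loc, hs] at hL
      obtain ⟨h1, h2, h3⟩ := hL
      refine ⟨_, h1, hr.symm, fun h => absurd hr h, hc, ?_, by simp only [h3, hr, List.length_nil]⟩
      rw [h2, hr]
      exact ⟨rfl, by simp [newGV]⟩
  | write r cur x hs =>
    simp only [Loc, hs] at hL
    obtain ⟨r0, h1, h2, h3, h4, h5, h6⟩ := hL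
    simp only [GC.upd, Function.update_self]
    apply loc_after
    · simp [Rec.push]
    · exact h4
    · exact h5
    · simp [Rec.push, h6]
  | poll r j todo cur hs =>
    simp only [Loc, hs] at hL
    simp only [GC.upd, Function.update_self]
    exact hL
  | fin j view hs =>
    simp only [Loc, hs] at hL
    simp only [GC.upd, Function.update_self]
    exact hL
  | idle => exact hL

theorem Pre.move {K B : ℕ} {η : ℝ} {g g' : GC n} {i : Fin n} {b : Bool}
    (hL : Loc K B (g.pd i)) (h : Move K B η g i b g') (q : Fin n) :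
    Pre (g.pd q).m (g'.pd q).m := by
  by_cases hq : q = i
  swap
  · rw [move_ne h hq]; exact Pre.refl _
  subst hq
  cases h with
  | enter hs =>
    simp only [Loc, hs] at hL
    rw [hL.1]
    trivial
  | entry j known cur hs =>
    simp only [GC.upd, Function.update_self]
    exact Pre.refl _
  | flip r cur hs =>
    rw [flipStep_pd, Function.update_self]
    exact Pre.refl _
  | write r cur x hs =>
    simp only [Loc, hs] at hL
    obtain ⟨r0, h1, h2, h3, h4, h5, h6⟩ := hL
    simp only [GC.upd, Function.update_self]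
    rw [h1]
    refine ⟨_, rfl, ?_, ?_⟩
    · simp only [Rec.push, h2]
      exact List.prefix_append _ _
    · intro h
      simp only [Rec.push]
      exact h3 (by rwa [h2] at h)
  | poll r j todo cur hs =>
    simp only [GC.upd, Function.update_self]
    exact Pre.refl _
  | fin j view hs =>
    simp only [GC.upd, Function.update_self]
    exact Pre.refl _
  | idle => exact Pre.refl _

theorem kn_after (K B : ℕ) (i : Fin n) (r : Rec n) (gv : List (GV n)) (pw : List (Fin n → ℕ)) :
    kn ⟨after K B i r, some r, gv, pw⟩ = r.known := by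
  unfold after
  split_ifs with h5 <;> rfl

theorem rd_move {K B : ℕ} {η : ℝ} {g g' : GC n} {i : Fin n} {b : Bool}
    (hL : Loc K B (g.pd i)) (h : Move K B η g i b g') (x : Fin n) (hx : rd (g'.pd i) x) :
    rd (g.pd i) x ∨ ((g.pd x).m ≠ none → x ≠ i → x ∈ kn (g'.pd i)) := by
  cases h with
  | enter hs =>
    simp only [GC.upd, Function.update_self, rd] at hx
    omega
  | entry j known cur hs =>
    simp only [GC.upd, Function.update_self, rd] at hx
    by_cases hxj : x = j
    · subst hxj
      right
      intro h1 h2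
      simp only [GC.upd, Function.update_self, kn, addKn]
      rw [if_pos ⟨h2, Option.isSome_iff_ne_none.mpr h1⟩]
      exact Finset.mem_insert_self _ _
    · left
      simp only [rd, hs]
      have : x.1 ≠ j.1 := fun h => hxj (Fin.ext h)
      omega
  | flip r cur hs =>
    left
    rcases hs with hs | ⟨j, hj, hs, hr, hc⟩
    · simp only [rd, hs]
    · simp only [rd, hs]
      exact lt_of_lt_of_le x.2 hj
  | write r cur y hs => left; simp only [rd, hs]
  | poll r j todo cur hs => left; simp only [rd, hs]
  | fin j view hs => left; simp only [rd, hs]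
  | idle => exact Or.inl hx

theorem kn_move {K B : ℕ} {η : ℝ} {g g' : GC n} {i : Fin n} {b : Bool}
    (hL : Loc K B (g.pd i)) (h : Move K B η g i b g') (x : Fin n) :
    (x ∈ kn (g.pd i) → x ∈ kn (g'.pd i)) ∧
      (x ∈ kn (g'.pd i) → x ∈ kn (g.pd i) ∨ (x ≠ i ∧ (g.pd x).m ≠ none)) := by
  cases h with
  | enter hs =>
    simp [GC.upd, kn, hs]
  | entry j known cur hs =>
    simp only [GC.upd, Function.update_self, kn, hs, addKn]
    split_ifs with h1
    · refine ⟨fun h => Finset.mem_insert_of_mem h, fun h => ?_⟩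
      rcases Finset.mem_insert.mp h with rfl | h
      · exact Or.inr ⟨h1.1, Option.isSome_iff_ne_none.mp h1.2⟩
      · exact Or.inl h
    · exact ⟨id, Or.inl⟩
  | flip r cur hs =>
    rw [flipStep_pd, Function.update_self]
    rcases hs with hs | ⟨j, hj, hs, hr, hc⟩
    · simp only [kn, hs]
      exact ⟨id, Or.inl⟩
    · simp only [kn, hs]
      exact ⟨id, Or.inl⟩
  | write r cur y hs =>
    simp only [GC.upd, Function.update_self]
    rw [kn_after]
    simp only [kn, hs, Rec.push]
    exact ⟨id, Or.inl⟩
  | poll r j todo cur hs =>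
    simp only [GC.upd, Function.update_self, kn, hs]
    exact ⟨id, Or.inl⟩
  | fin j view hs =>
    simp only [GC.upd, Function.update_self, kn, hs]
    exact ⟨id, Or.inl⟩
  | idle => exact ⟨id, Or.inl⟩

theorem Loc.none {K B : ℕ} {d : PD n} (hL : Loc K B d) (h : d.m = none) (x : Fin n) :
    ¬ rd d x := by
  unfold Loc at hL
  unfold rd
  cases hs : d.s with
  | enter => simp
  | entry j known cur => simp only [hs] at hL; rw [hL.1] at h; cases h
  | write r cur x => simp only [hs] at hL; obtain ⟨r0, h1, -⟩ := hL; rw [h1] at h; cases h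
  | poll r todo cur => simp only [hs] at hL; rw [hL.1] at h; cases h
  | fin j view => simp only [hs] at hL; obtain ⟨r0, h1, -⟩ := hL; rw [h1] at h; cases h

/-- for two processes that have read the register of each other, at least one knows the other -/
def HInv (g : GC n) : Prop :=
  ∀ r q, r ≠ q → rd (g.pd r) q → rd (g.pd q) r → q ∈ kn (g.pd r) ∨ r ∈ kn (g.pd q)

/-- known processes participate -/
def KInv (g : GC n) : Prop :=
  ∀ r q, q ∈ kn (g.pd r) → q ≠ r ∧ (g.pd q).m ≠ none

theorem HInv.move {K B : ℕ} {η : ℝ} {g g' : GC n} {i : Fin n} {b : Bool}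
    (hL : ∀ q, Loc K B (g.pd q)) (h : Move K B η g i b g') (hH : HInv g) : HInv g' := by
  have key : ∀ q, q ≠ i → rd (g'.pd i) q → rd (g'.pd q) i → q ∈ kn (g'.pd i) ∨ i ∈ kn (g'.pd q) := by
    intro q hq h1 h2
    rw [move_ne h hq] at h2 ⊢
    rcases rd_move (hL i) h q h1 with h3 | h3
    · rcases hH i q (Ne.symm hq) h3 h2 with h4 | h4
      · exact Or.inl ((kn_move (hL i) h q).1 h4)
      · exact Or.inr h4
    · by_cases h4 : (g.pd q).m = none
      · exact absurd h2 ((hL q).none h4 i)
      · exact Or.inl (h3 h4 hq)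
  intro r q hrq h1 h2
  by_cases hr : r = i
  · subst hr
    exact key q (Ne.symm hrq) h1 h2
  · by_cases hq : q = i
    · subst hq
      exact (key r hr h2 h1).symm
    · rw [move_ne h hr, move_ne h hq] at *
      exact hH r q hrq h1 h2

theorem KInv.move {K B : ℕ} {η : ℝ} {g g' : GC n} {i : Fin n} {b : Bool}
    (hL : ∀ q, Loc K B (g.pd q)) (h : Move K B η g i b g') (hK : KInv g) : KInv g' := by
  have hm : ∀ q, (g.pd q).m ≠ none → (g'.pd q).m ≠ none := by
    intro q hq h'
    obtain ⟨r, hr⟩ := Option.ne_none_iff_exists'.mp hq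
    have h2 := Pre.move (hL i) h q
    rw [hr, h'] at h2
    obtain ⟨r', h3, -⟩ := h2
    cases h3
  intro r q hq
  by_cases hr : r = i
  · subst hr
    rcases (kn_move (hL r) h q).2 hq with h1 | ⟨h1, h2⟩
    · exact ⟨(hK r q h1).1, hm q (hK r q h1).2⟩
    · exact ⟨h1, hm q h2⟩
  · rw [move_ne h hr] at hq
    exact ⟨(hK r q hq).1, hm q (hK r q hq).2⟩

end RC.S2
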