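import Pool.Agent.H88.RC.S2.Clock

/-!
# Stage 2: the numerical inequality behind the agreement of all final views
-/

namespace RC.S2

open Finset

variable {n : ℕ} {η : ℝ} {K : ℕ}

theorem ww_le_avg (hη : 0 < η) (hK : 1 ≤ K) (k : ℕ) :
    ww η K k ≤ Real.sqrt (η * K) * ((VV η K k + 2 / K) / 2) := by
  have hK' : (0 : ℝ) < K := by exact_mod_cast hK
  have hu := uu_pos hη hK k
  have h1 : 0 ≤ Real.sqrt (η * K) := Real.sqrt_nonneg _
  have h2 : VV η K k + 2 / K = uu η K k + 1 / K := by
    rw [uu_eq]; ring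
  rw [h2]
  apply le_of_sq_le_sq
  · rw [ww_sq hη hK, mul_pow, Real.sq_sqrt (by positivity)]
    have h3 : 4 * (uu η K k / K) ≤ (uu η K k + 1 / K) ^ 2 := by
      have : (uu η K k + 1 / K) ^ 2 - 4 * (uu η K k / K) = (uu η K k - 1 / K) ^ 2 := by
        field_simp; ring
      nlinarith [sq_nonneg (uu η K k - 1 / K)]
    have h4 : η * uu η K k = η * K * (uu η K k / K) := by field_simp
    rw [h4]
    have : (0 : ℝ) < η * K := by positivity
    nlinarith
  · positivity

theorem ww_le_uu (hη : 0 < η) (hK : 1 ≤ K) (k : ℕ) :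
    ww η K k ≤ Real.sqrt (η * K) * uu η K k := by
  have hK' : (0 : ℝ) < K := by exact_mod_cast hK
  have hu := uu_pos hη hK k
  have h1 : 0 ≤ Real.sqrt (η * K) := Real.sqrt_nonneg _
  apply le_of_sq_le_sq
  · rw [ww_sq hη hK, mul_pow, Real.sq_sqrt (by positivity)]
    have h3 : 1 ≤ K * uu η K k := by
      unfold uu
      rw [mul_div_cancel₀ _ hK'.ne']
      exact one_le_pow₀ (by linarith)
    have h4 : η * K * uu η K k ^ 2 = η * uu η K k * (K * uu η K k) := by ring
    rw [h4]
    have : 0 < η * uu η K k := by positivity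
    nlinarith
  · positivity

theorem uu_mono (hη : 0 < η) (hK : 1 ≤ K) : Monotone (uu η K) := by
  intro a b hab
  rw [uu_eq, uu_eq]
  have := VV_mono hη hK hab
  linarith

theorem ww_mono (hη : 0 < η) (hK : 1 ≤ K) : Monotone (ww η K) := by
  intro a b hab
  unfold ww
  apply Real.sqrt_le_sqrt
  exact mul_le_mul_of_nonneg_left (uu_mono hη hK hab) hη.le

theorem sum_ww_le (hη : 0 < η) (hK : 1 ≤ K) (P : Finset (Fin n)) (hP : P.card ≤ K)
    (m : Fin n → ℕ) :
    ∑ q ∈ P, ww η K (m q) ≤ Real.sqrt (η * K) * (PhiC η K m / 2 + 1) := by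
  have hK' : (0 : ℝ) < K := by exact_mod_cast hK
  have h1 : 0 ≤ Real.sqrt (η * K) := Real.sqrt_nonneg _
  calc ∑ q ∈ P, ww η K (m q) ≤ ∑ q ∈ P, Real.sqrt (η * K) * ((VV η K (m q) + 2 / K) / 2) :=
        Finset.sum_le_sum fun q _ => ww_le_avg hη hK (m q)
    _ = Real.sqrt (η * K) * ((∑ q ∈ P, VV η K (m q)) / 2 + P.card / K) := by
        rw [← Finset.mul_sum, ← Finset.sum_div, Finset.sum_add_distrib, Finset.sum_const,
          nsmul_eq_mul]
        ring
    _ ≤ _ := by
        apply mul_le_mul_of_nonneg_left _ h1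
        have h2 : (∑ q ∈ P, VV η K (m q)) ≤ PhiC η K m :=
          Finset.sum_le_sum_of_subset_of_nonneg (Finset.subset_univ P)
            fun q _ _ => VV_nonneg hη hK _
        have h3 : (P.card : ℝ) / K ≤ 1 := by
          rw [div_le_one hK']
          exact_mod_cast hP
        linarith

theorem eta_sum_ww_le (hη : 0 < η) (hK : 1 ≤ K) (m : ℕ) :
    η * ∑ i ∈ range m, ww η K i ≤ Real.sqrt (η * K) * VV η K m := by
  induction m with
  | zero => simp [VV_zero]
  | succ m ih =>
    rw [Finset.sum_range_succ, VV_succ]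
    have := ww_le_uu hη hK m
    nlinarith

/-- telescoping of disjoint intervals -/
theorem tele {V : ℕ → ℝ} (hV : Monotone V) (hV0 : V 0 = 0) (a b : ℕ → ℕ) (m M : ℕ)
    (h2 : ∀ i, i + 1 < m → b i ≤ a (i + 1)) (h3 : ∀ i, i < m → b i ≤ M) :
    ∑ i ∈ range m, (V (b i) - V (a i)) ≤ V M := by
  have key : ∀ m', m' + 1 ≤ m → ∑ i ∈ range (m' + 1), (V (b i) - V (a i)) ≤ V (b m') := by
    intro m'
    induction m' with
    | zero =>
      intro _
      have : 0 ≤ V (a 0) := by rw [← hV0]; exact hV (Nat.zero_le _)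
      simp only [zero_add, Finset.range_one, Finset.sum_singleton]
      linarith
    | succ m' ih =>
      intro h
      rw [Finset.sum_range_succ]
      have h4 := ih (by omega)
      have h5 := hV (h2 m' (by omega))
      linarith
  cases m with
  | zero =>
    simp only [Finset.range_zero, Finset.sum_empty]
    rw [← hV0]; exact hV (Nat.zero_le _)
  | succ m =>
    exact (key m le_rfl).trans (hV (h3 m (by omega)))

/-- one process -/
theorem one_proc (hη : 0 < η) (hK : 1 ≤ K) (P : Finset (Fin n)) (hP : P.card ≤ K)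
    (pT : Fin n → ℕ) (hPT : ∀ q, q ∉ P → pT q = 0) (m : ℕ) (G H : ℕ → ℝ)
    (pc pw : ℕ → Fin n → ℕ)
    (hGH : ∀ i, i < m → |G i - H i| ≤ 2 * ∑ r, (VV η K (pw i r) - VV η K (pc i r - 1)))
    (hpcpw : ∀ i, i < m → ∀ r, pc i r ≤ pw i r)
    (hpwpc : ∀ i, i + 1 < m → ∀ r, pw i r ≤ pc (i + 1) r)
    (hpwT : ∀ i, i < m → ∀ r, pw i r ≤ pT r) :
    ∑ i ∈ range m, |G i - H i| * ww η K i ≤
      2 * ww η K m * PhiC η K pT + 2 * (PhiC η K pT + 1) * (Real.sqrt (η * K) * VV η K m) := by
  have hK' : (0 : ℝ) < K := by exact_mod_cast hK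
  set Φ := PhiC η K pT with hΦ
  have hΦ0 : 0 ≤ Φ := PhiC_nonneg hη hK _
  have hmono := VV_mono hη hK
  -- the jump at `pc`
  have hjump : ∀ i, i < m → ∑ r, (VV η K (pc i r) - VV η K (pc i r - 1)) ≤ η * (Φ + 1) := by
    intro i hi
    have h1 : ∀ r, VV η K (pc i r) - VV η K (pc i r - 1) ≤
        if r ∈ P then η * (VV η K (pT r) + 1 / K) else 0 := by
      intro r
      have hle : pc i r ≤ pT r := (hpcpw i hi r).trans (hpwT i hi r)
      split_ifs with hr
      · rcases Nat.eq_zero_or_pos (pc i r) with h0 | h0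
        · rw [h0]
          have := VV_nonneg hη hK (pT r)
          have : (0 : ℝ) < 1 / K := by positivity
          simp only [Nat.zero_sub, sub_self]
          nlinarith
        · obtain ⟨c, hc⟩ : ∃ c, pc i r = c + 1 := ⟨pc i r - 1, by omega⟩
          rw [hc, VV_succ, Nat.add_sub_cancel, uu_eq]
          have h2 : VV η K c ≤ VV η K (pT r) := hmono (by omega)
          nlinarith
      · have h0 : pc i r = 0 := by rw [hPT r hr] at hle; omega
        rw [h0]
        simp
    calc ∑ r, (VV η K (pc i r) - VV η K (pc i r - 1)) ≤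
        ∑ r, if r ∈ P then η * (VV η K (pT r) + 1 / K) else 0 := Finset.sum_le_sum fun r _ => h1 r
      _ = ∑ r ∈ P, η * (VV η K (pT r) + 1 / K) := by
          rw [Finset.sum_ite_mem, Finset.univ_inter]
      _ = η * ((∑ r ∈ P, VV η K (pT r)) + P.card / K) := by
          rw [← Finset.mul_sum, Finset.sum_add_distrib, Finset.sum_const, nsmul_eq_mul]
          ring
      _ ≤ η * (Φ + 1) := by
          apply mul_le_mul_of_nonneg_left _ hη.le
          have h2 : (∑ q ∈ P, VV η K (pT q)) ≤ Φ :=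
            Finset.sum_le_sum_of_subset_of_nonneg (Finset.subset_univ P)
              fun q _ _ => VV_nonneg hη hK _
          have h3 : (P.card : ℝ) / K ≤ 1 := by
            rw [div_le_one hK']
            exact_mod_cast hP
          linarith
  have hstep : ∀ i ∈ range m, |G i - H i| * ww η K i ≤
      2 * (ww η K m * ∑ r, (VV η K (pw i r) - VV η K (pc i r))) +
        2 * (ww η K i * (η * (Φ + 1))) := by
    intro i hi
    have hi' := Finset.mem_range.mp hi
    have h1 := hGH i hi'
    have h2 := hjump i hi'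
    have hw0 : 0 ≤ ww η K i := ww_nonneg i
    have hwm : ww η K i ≤ ww η K m := ww_mono hη hK hi'.le
    have h3 : 0 ≤ ∑ r, (VV η K (pw i r) - VV η K (pc i r)) :=
      Finset.sum_nonneg fun r _ => sub_nonneg.mpr (hmono (hpcpw i hi' r))
    have h4 : ∑ r, (VV η K (pw i r) - VV η K (pc i r - 1)) =
        ∑ r, (VV η K (pw i r) - VV η K (pc i r)) +
          ∑ r, (VV η K (pc i r) - VV η K (pc i r - 1)) := by
      rw [← Finset.sum_add_distrib]
      refine Finset.sum_congr rfl fun r _ => by ring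
    rw [h4] at h1
    calc |G i - H i| * ww η K i ≤ (2 * (∑ r, (VV η K (pw i r) - VV η K (pc i r)) +
          ∑ r, (VV η K (pc i r) - VV η K (pc i r - 1)))) * ww η K i :=
          mul_le_mul_of_nonneg_right h1 hw0
      _ = 2 * (ww η K i * ∑ r, (VV η K (pw i r) - VV η K (pc i r))) +
          2 * (ww η K i * ∑ r, (VV η K (pc i r) - VV η K (pc i r - 1))) := by ring
      _ ≤ _ := by
          have h5 := mul_le_mul_of_nonneg_right hwm h3
          have h6 := mul_le_mul_of_nonneg_left h2 hw0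
          linarith
  calc ∑ i ∈ range m, |G i - H i| * ww η K i ≤
      ∑ i ∈ range m, (2 * (ww η K m * ∑ r, (VV η K (pw i r) - VV η K (pc i r))) +
        2 * (ww η K i * (η * (Φ + 1)))) := Finset.sum_le_sum hstep
    _ = 2 * (ww η K m * ∑ r, ∑ i ∈ range m, (VV η K (pw i r) - VV η K (pc i r))) +
        2 * ((Φ + 1) * (η * ∑ i ∈ range m, ww η K i)) := by
        rw [Finset.sum_add_distrib, ← Finset.mul_sum, ← Finset.mul_sum, ← Finset.mul_sum,
          ← Finset.sum_mul, Finset.sum_comm]
        ring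
    _ ≤ 2 * (ww η K m * Φ) + 2 * ((Φ + 1) * (Real.sqrt (η * K) * VV η K m)) := by
        have h1 : ∑ r, ∑ i ∈ range m, (VV η K (pw i r) - VV η K (pc i r)) ≤ Φ := by
          refine Finset.sum_le_sum fun r _ => ?_
          exact tele hmono VV_zero (fun i => pc i r) (fun i => pw i r) m (pT r)
            (fun i hi => hpwpc i hi r) (fun i hi => hpwT i hi r)
        have h2 := eta_sum_ww_le hη hK m
        have h3 := mul_le_mul_of_nonneg_left h1 (ww_nonneg (η := η) (K := K) m)
        have h4 := mul_le_mul_of_nonneg_left h2 (by linarith : 0 ≤ Φ + 1)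
        linarith
    _ = _ := by ring

/-- the difference of the two sums of one process -/
theorem diff_proc (pT cT lv : ℕ) (G H x : ℕ → ℝ)
    (hx : ∀ i, |x i| ≤ 1) (hG0 : ∀ i, 0 ≤ G i) (hG1 : ∀ i, G i ≤ 1)
    (hH0 : ∀ i, 0 ≤ H i) (hH1 : ∀ i, H i ≤ 1)
    (h1 : pT ≤ cT) (h2 : cT ≤ pT + 1) (h3 : pT ≤ lv)
    (hlate : ∀ i, cT < i → i < lv → G i = 0) :
    |∑ i ∈ range lv, G i * ww η K i * x i - ∑ i ∈ range cT, H i * ww η K i * x i| ≤
      ∑ i ∈ range pT, |G i - H i| * ww η K i + ww η K pT + ww η K cT := by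
  set M := lv + cT + 1 with hM
  have e1 : ∑ i ∈ range lv, G i * ww η K i * x i =
      ∑ i ∈ range M, if i < lv then G i * ww η K i * x i else 0 := by
    rw [← Finset.sum_filter]
    apply Finset.sum_congr _ fun _ _ => rfl
    ext i; simp only [Finset.mem_range, Finset.mem_filter]; omega
  have e2 : ∑ i ∈ range cT, H i * ww η K i * x i =
      ∑ i ∈ range M, if i < cT then H i * ww η K i * x i else 0 := by
    rw [← Finset.sum_filter]
    apply Finset.sum_congr _ fun _ _ => rfl
    ext i; simp only [Finset.mem_range, Finset.mem_filter]; omega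
  have e3 : ∑ i ∈ range pT, |G i - H i| * ww η K i =
      ∑ i ∈ range M, if i < pT then |G i - H i| * ww η K i else 0 := by
    rw [← Finset.sum_filter]
    apply Finset.sum_congr _ fun _ _ => rfl
    ext i; simp only [Finset.mem_range, Finset.mem_filter]; omega
  have e4 : ww η K pT = ∑ i ∈ range M, if i = pT then ww η K i else 0 := by
    rw [Finset.sum_ite_eq' (range M) pT (fun i => ww η K i), if_pos]
    rw [Finset.mem_range]; omega
  have e5 : ww η K cT = ∑ i ∈ range M, if i = cT then ww η K i else 0 := by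
    rw [Finset.sum_ite_eq' (range M) cT (fun i => ww η K i), if_pos]
    rw [Finset.mem_range]; omega
  rw [e1, e2, e3, e4, e5, ← Finset.sum_sub_distrib, ← Finset.sum_add_distrib,
    ← Finset.sum_add_distrib]
  refine (Finset.abs_sum_le_sum_abs _ _).trans (Finset.sum_le_sum fun i _ => ?_)
  have hw0 : 0 ≤ ww η K i := ww_nonneg i
  have hwx : |ww η K i * x i| ≤ ww η K i := by
    rw [abs_mul, abs_of_nonneg hw0]
    have := hx i
    nlinarith [abs_nonneg (x i)]
  have gen : ∀ a : ℝ, |a * ww η K i * x i| ≤ |a| * ww η K i := by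
    intro a
    rw [mul_assoc, abs_mul]
    exact mul_le_mul_of_nonneg_left hwx (abs_nonneg a)
  by_cases hi : i < pT
  · rw [if_pos (by omega : i < lv), if_pos (by omega : i < cT), if_pos hi]
    rw [if_neg (by omega : ¬ i = pT), if_neg (by omega : ¬ i = cT)]
    have e : G i * ww η K i * x i - H i * ww η K i * x i = (G i - H i) * ww η K i * x i := by ring
    rw [e]
    linarith [gen (G i - H i)]
  · by_cases hi2 : i = pT
    · rw [if_neg hi, if_pos hi2]
      have h5 : (0 : ℝ) ≤ if i = cT then ww η K i else 0 := by split_ifs <;> simp [hw0]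
      have h6 : |(if i < lv then G i * ww η K i * x i else 0) -
          (if i < cT then H i * ww η K i * x i else 0)| ≤ ww η K i := by
        have e : (if i < lv then G i * ww η K i * x i else 0) -
            (if i < cT then H i * ww η K i * x i else 0) =
            ((if i < lv then G i else 0) - (if i < cT then H i else 0)) * ww η K i * x i := by
          split_ifs <;> ring
        rw [e]
        refine (gen _).trans ?_
        have h7 : |(if i < lv then G i else 0) - (if i < cT then H i else 0)| ≤ 1 := by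
          rw [abs_le]
          have := hG0 i; have := hG1 i; have := hH0 i; have := hH1 i
          split_ifs <;> constructor <;> linarith
        nlinarith
      linarith
    · have hi3 : ¬ i < cT := by omega
      rw [if_neg hi, if_neg hi2, if_neg hi3, sub_zero, zero_add, zero_add]
      by_cases hi4 : i = cT
      · rw [if_pos hi4]
        split_ifs
        · refine (gen _).trans ?_
          rw [abs_of_nonneg (hG0 i)]
          have := hG1 i
          nlinarith
        · simp [hw0]
      · rw [if_neg hi4]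
        split_ifs with h8
        · rw [hlate i (by omega) h8]
          simp
        · simp

theorem main_bound (hη : 0 < η) (hK : 1 ≤ K) (P : Finset (Fin n)) (hP : P.card ≤ K)
    (pT cT lv : Fin n → ℕ) (G H x : Fin n → ℕ → ℝ) (pc pw : Fin n → ℕ → Fin n → ℕ)
    (hx : ∀ q i, |x q i| ≤ 1) (hG0 : ∀ q i, 0 ≤ G q i) (hG1 : ∀ q i, G q i ≤ 1)
    (hH0 : ∀ q i, 0 ≤ H q i) (hH1 : ∀ q i, H q i ≤ 1)
    (h1 : ∀ q, pT q ≤ cT q) (h2 : ∀ q, cT q ≤ pT q + 1) (h3 : ∀ q, pT q ≤ lv q)
    (hPc : ∀ q, q ∉ P → cT q = 0) (hPl : ∀ q, q ∉ P → lv q = 0)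
    (hlate : ∀ q i, cT q < i → i < lv q → G q i = 0)
    (hGH : ∀ q i, i < pT q → |G q i - H q i| ≤
      2 * ∑ r, (VV η K (pw q i r) - VV η K (pc q i r - 1)))
    (hpcpw : ∀ q i, i < pT q → ∀ r, pc q i r ≤ pw q i r)
    (hpwpc : ∀ q i, i + 1 < pT q → ∀ r, pw q i r ≤ pc q (i + 1) r)
    (hpwT : ∀ q i, i < pT q → ∀ r, pw q i r ≤ pT r)
    (hΦ : PhiC η K cT ≤ 1 + 1 / 100) :
    |∑ q, ∑ i ∈ range (lv q), G q i * ww η K i * x q i -
      ∑ q, ∑ i ∈ range (cT q), H q i * ww η K i * x q i| ≤ 11 * Real.sqrt (η * K) := by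
  have hs0 : 0 ≤ Real.sqrt (η * K) := Real.sqrt_nonneg _
  set s := Real.sqrt (η * K) with hs
  have hΦT : PhiC η K pT ≤ PhiC η K cT := PhiC_mono hη hK h1
  have hΦ0 : 0 ≤ PhiC η K pT := PhiC_nonneg hη hK _
  have hPT : ∀ q, q ∉ P → pT q = 0 := by
    intro q hq
    have := h1 q; have := hPc q hq
    omega
  have e : ∑ q, ∑ i ∈ range (lv q), G q i * ww η K i * x q i -
      ∑ q, ∑ i ∈ range (cT q), H q i * ww η K i * x q i =
      ∑ q ∈ P, (∑ i ∈ range (lv q), G q i * ww η K i * x q i -
        ∑ i ∈ range (cT q), H q i * ww η K i * x q i) := by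
    rw [← Finset.sum_sub_distrib]
    symm
    apply Finset.sum_subset (Finset.subset_univ P)
    intro q _ hq
    rw [hPc q hq, hPl q hq]
    simp
  rw [e]
  calc _ ≤ ∑ q ∈ P, |∑ i ∈ range (lv q), G q i * ww η K i * x q i -
        ∑ i ∈ range (cT q), H q i * ww η K i * x q i| := Finset.abs_sum_le_sum_abs _ _
    _ ≤ ∑ q ∈ P, ((2 * ww η K (pT q) * PhiC η K pT +
          2 * (PhiC η K pT + 1) * (s * VV η K (pT q))) + ww η K (pT q) + ww η K (cT q)) := by
        refine Finset.sum_le_sum fun q _ => ?_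
        refine (diff_proc (pT q) (cT q) (lv q) (G q) (H q) (x q) (hx q) (hG0 q) (hG1 q) (hH0 q)
          (hH1 q) (h1 q) (h2 q) (h3 q) (hlate q)).trans ?_
        have := one_proc hη hK P hP pT hPT (pT q) (G q) (H q) (pc q) (pw q) (hGH q) (hpcpw q)
          (hpwpc q) (hpwT q)
        linarith
    _ = (2 * PhiC η K pT + 1) * ∑ q ∈ P, ww η K (pT q) +
          2 * (PhiC η K pT + 1) * s * ∑ q ∈ P, VV η K (pT q) + ∑ q ∈ P, ww η K (cT q) := by
        rw [Finset.mul_sum, Finset.mul_sum, ← Finset.sum_add_distrib, ← Finset.sum_add_distrib]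
        refine Finset.sum_congr rfl fun q _ => by ring
    _ ≤ (2 * PhiC η K pT + 1) * (s * (PhiC η K pT / 2 + 1)) +
          2 * (PhiC η K pT + 1) * s * PhiC η K pT + s * (PhiC η K cT / 2 + 1) := by
        have h4 := sum_ww_le hη hK P hP pT
        have h5 := sum_ww_le hη hK P hP cT
        have h6 : ∑ q ∈ P, VV η K (pT q) ≤ PhiC η K pT :=
          Finset.sum_le_sum_of_subset_of_nonneg (Finset.subset_univ P)
            fun q _ _ => VV_nonneg hη hK _
        have h7 := mul_le_mul_of_nonneg_left h4 (by linarith : 0 ≤ 2 * PhiC η K pT + 1)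
        have h8 : 0 ≤ 2 * (PhiC η K pT + 1) * s := by positivity
        have h9 := mul_le_mul_of_nonneg_left h6 h8
        linarith
    _ ≤ 11 * s := by
        set a := PhiC η K pT
        have ha : a ≤ 1 + 1 / 100 := hΦT.trans hΦ
        have h10 : (2 * a + 1) * (a / 2 + 1) + 2 * (a + 1) * a + (PhiC η K cT / 2 + 1) ≤ 11 := by
          nlinarith
        have := mul_le_mul_of_nonneg_right h10 hs0
        linarith

end RC.S2
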